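import Pool.Agent.H985.Dense.Main

set_option autoImplicit false
open MeasureTheory Set Metric Filter
open scoped ENNReal NNReal RealInnerProductSpace Topology

namespace Pool.Agent.H985.Dense

/-- A convex function is strictly differentiable wherever it is differentiable. -/
lemma strict_of_convex {F : Type*} [NormedAddCommGroup F] [NormedSpace ℝ F] {f : F → ℝ}
    (hf : ConvexOn ℝ univ f) {x : F} (hd : DifferentiableAt ℝ f x) :
    HasStrictFDerivAt f (fderiv ℝ f x) x := by
  obtain ⟨f', hf'⟩ : ∃ f', f' = fderiv ℝ f x := ⟨_, rfl⟩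
  rw [← hf']
  have hder : HasFDerivAt f f' x := by rw [hf']; exact hd.hasFDerivAt
  have hlit := hder.isLittleO
  apply HasStrictFDerivAt.of_isLittleO
  rw [Asymptotics.isLittleO_iff]
  intro c hc
  rw [Asymptotics.isLittleO_iff] at hlit
  have h1 := hlit (c := c / 3) (by positivity)
  rw [Metric.eventually_nhds_iff] at h1
  obtain ⟨R, hR, h1⟩ := h1
  obtain ⟨r, hr⟩ : ∃ r, r = R / 2 := ⟨_, rfl⟩
  have hr0 : 0 < r := by rw [hr]; positivity
  obtain ⟨h, hh⟩ : ∃ h : F → ℝ, h = fun y => f y - f x - f' (y - x) := ⟨_, rfl⟩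
  have hconv : ∀ y z : F, ∀ a b : ℝ, 0 ≤ a → 0 ≤ b → a + b = 1 →
      h (a • y + b • z) ≤ a * h y + b * h z := by
    intro y z a b ha hb hab
    have h2 := hf.2 (mem_univ y) (mem_univ z) ha hb hab
    simp only [smul_eq_mul] at h2
    rw [hh]
    simp only
    have e : a • y + b • z - x = a • (y - x) + b • (z - x) := by
      have : x = (a + b) • x := by rw [hab, one_smul]
      nth_rewrite 1 [this]
      rw [smul_sub, smul_sub, add_smul]; abel
    rw [e, map_add, map_smul, map_smul, smul_eq_mul, smul_eq_mul]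
    have e2 : f x = a * f x + b * f x := by rw [← add_mul, hab, one_mul]
    linarith
  have hbd : ∀ y, ‖y - x‖ < R → |h y| ≤ c / 3 * ‖y - x‖ := by
    intro y hy
    have := h1 (by rwa [dist_eq_norm] : dist y x < R)
    rw [hh]
    simpa using this
  have key : ∀ y z : F, ‖y - x‖ < r → ‖z - x‖ < r → h y - h z ≤ c * ‖y - z‖ := by
    intro y z hy hz
    by_cases hyz : y = z
    · subst hyz; simp
    have hn : 0 < ‖y - z‖ := norm_pos_iff.mpr (sub_ne_zero.mpr hyz)
    obtain ⟨w, hw⟩ : ∃ w : F, w = y + (r / ‖y - z‖) • (y - z) := ⟨_, rfl⟩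
    obtain ⟨l, hl⟩ : ∃ l : ℝ, l = ‖y - z‖ / (‖y - z‖ + r) := ⟨_, rfl⟩
    have hl0 : 0 ≤ l := by rw [hl]; positivity
    have hl1 : l ≤ 1 := by rw [hl, div_le_one (by positivity)]; linarith
    have hcomb : (1 - l) • z + l • w = y := by
      have e1 : l * (1 + r / ‖y - z‖) = 1 := by rw [hl]; field_simp
      have e2 : (1 - l) • z + l • w = z + (l * (1 + r / ‖y - z‖)) • (y - z) := by
        rw [hw, sub_smul, one_smul, smul_add, smul_smul, mul_add, mul_one, add_smul, smul_sub l y z]
        abel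
      rw [e2, e1, one_smul]; abel
    have h2 := hconv z w (1 - l) l (by linarith) hl0 (by ring)
    rw [hcomb] at h2
    have hwx : ‖w - x‖ < R := by
      have e : w - x = (y - x) + (r / ‖y - z‖) • (y - z) := by rw [hw]; abel
      rw [e]
      refine lt_of_le_of_lt (norm_add_le _ _) ?_
      rw [norm_smul, Real.norm_eq_abs, abs_of_pos (by positivity), div_mul_cancel₀ _ hn.ne']
      linarith
    have h3 := hbd w hwx
    have h4 := hbd z (by linarith)
    have h5 : h w - h z ≤ c * r := by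
      have e1 := le_abs_self (h w)
      have e2 := neg_abs_le (h z)
      have e3 : ‖w - x‖ ≤ 2 * r := by linarith
      nlinarith
    have h6 : h y - h z ≤ l * (h w - h z) := by linarith
    have h7 : l * (h w - h z) ≤ l * (c * r) := mul_le_mul_of_nonneg_left h5 hl0
    have h8 : l * (c * r) ≤ c * ‖y - z‖ := by
      have : l * r ≤ ‖y - z‖ := by
        rw [hl, div_mul_eq_mul_div, div_le_iff₀ (by positivity)]
        nlinarith [norm_nonneg (y - z)]
      calc l * (c * r) = c * (l * r) := by ring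
        _ ≤ _ := mul_le_mul_of_nonneg_left this hc.le
    linarith
  have hball : ball x r ×ˢ ball x r ∈ 𝓝 (x, x) := prod_mem_nhds (ball_mem_nhds x hr0)
    (ball_mem_nhds x hr0)
  filter_upwards [hball] with p hp
  have hp1 : ‖p.1 - x‖ < r := by rw [← dist_eq_norm]; exact hp.1
  have hp2 : ‖p.2 - x‖ < r := by rw [← dist_eq_norm]; exact hp.2
  have e : f p.1 - f p.2 - f' (p.1 - p.2) = h p.1 - h p.2 := by
    rw [hh]
    simp only
    have : p.1 - p.2 = (p.1 - x) - (p.2 - x) := by abel
    rw [this, map_sub]; ring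
  rw [e, Real.norm_eq_abs, abs_le]
  have k1 := key p.1 p.2 hp1 hp2
  have k2 := key p.2 p.1 hp2 hp1
  rw [norm_sub_rev] at k2
  constructor <;> linarith

/-- Euclidean three-space. -/
abbrev E3 : Type := EuclideanSpace ℝ (Fin 3)

/-- The linear part of the parametrisation of a face of the cube. -/
noncomputable def ell (i : Fin 3) : ℝ × ℝ →L[ℝ] E3 :=
  (ContinuousLinearMap.fst ℝ ℝ ℝ).smulRight (EuclideanSpace.single (i + 1) (1:ℝ)) +
    (ContinuousLinearMap.snd ℝ ℝ ℝ).smulRight (EuclideanSpace.single (i + 2) (1:ℝ))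

/-- The parametrisation of a face of the cube. -/
noncomputable def face (i : Fin 3) (s : ℝ) (z : ℝ × ℝ) : E3 :=
  EuclideanSpace.single i s + ell i z

lemma ell_self (i : Fin 3) (z : ℝ × ℝ) : ell i z i = 0 := by
  fin_cases i <;> simp [ell, PiLp.single_apply]
lemma ell_one (i : Fin 3) (z : ℝ × ℝ) : ell i z (i + 1) = z.1 := by
  fin_cases i <;> simp [ell, PiLp.single_apply]
lemma ell_two (i : Fin 3) (z : ℝ × ℝ) : ell i z (i + 2) = z.2 := by
  fin_cases i <;> simp [ell, PiLp.single_apply]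
lemma face_self (i : Fin 3) (s : ℝ) (z : ℝ × ℝ) : face i s z i = s := by
  simp [face, ell_self]
lemma face_one (i : Fin 3) (s : ℝ) (z : ℝ × ℝ) : face i s z (i + 1) = z.1 := by
  have : i + 1 ≠ i := by fin_cases i <;> decide
  simp [face, ell_one, PiLp.single_apply, this]
lemma face_two (i : Fin 3) (s : ℝ) (z : ℝ × ℝ) : face i s z (i + 2) = z.2 := by
  have : i + 2 ≠ i := by fin_cases i <;> decide
  simp [face, ell_two, PiLp.single_apply, this]

lemma three (i j : Fin 3) : j = i ∨ j = i + 1 ∨ j = i + 2 := by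
  fin_cases i <;> fin_cases j <;> decide

lemma face_surj (i : Fin 3) (v : E3) : face i (v i) (v (i + 1), v (i + 2)) = v := by
  ext j
  rcases three i j with rfl | rfl | rfl
  · exact face_self _ _ _
  · exact face_one _ _ _
  · exact face_two _ _ _

lemma norm_ell_le (i : Fin 3) (z : ℝ × ℝ) : ‖ell i z‖ ≤ 2 * ‖z‖ := by
  have e : ell i z = z.1 • (EuclideanSpace.single (i + 1) (1:ℝ) : E3) +
      z.2 • (EuclideanSpace.single (i + 2) (1:ℝ) : E3) := rfl
  rw [e]
  refine (norm_add_le _ _).trans ?_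
  rw [norm_smul, norm_smul]
  simp only [EuclideanSpace.norm_single, norm_one, mul_one]
  have h1 : ‖z.1‖ ≤ ‖z‖ := norm_fst_le z
  have h2 : ‖z.2‖ ≤ ‖z‖ := norm_snd_le z
  linarith

lemma face_sub (i : Fin 3) (s : ℝ) (z w : ℝ × ℝ) : face i s z - face i s w = ell i (z - w) := by
  rw [face, face, map_sub]; abel

lemma norm_face_le (i : Fin 3) {s : ℝ} (hs : |s| = 1) {z : ℝ × ℝ} (hz : z ∈ Q0) :
    ‖face i s z‖ ≤ 3 := by
  rw [face]
  refine (norm_add_le _ _).trans ?_
  rw [EuclideanSpace.norm_single, Real.norm_eq_abs, hs]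
  have h1 := norm_ell_le i z
  rw [mem_closedBall_zero_iff] at hz
  linarith

lemma one_le_norm_face (i : Fin 3) {s : ℝ} (hs : |s| = 1) (z : ℝ × ℝ) : 1 ≤ ‖face i s z‖ := by
  have := PiLp.norm_apply_le (face i s z) i
  rw [face_self, Real.norm_eq_abs, hs] at this
  exact this

end Pool.Agent.H985.Dense
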