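import Pool.Agent.H985.Dense.Convex

set_option autoImplicit false
open MeasureTheory Set Metric Filter
open scoped ENNReal NNReal RealInnerProductSpace Topology

namespace Pool.Agent.H985.Dense

/-- The radial projection onto the boundary of `K`, from the centre `z0`. -/
noncomputable def rad (K : Set E3) (z0 : E3) (v : E3) : E3 :=
  z0 + (gauge ((fun x => x + z0) ⁻¹' K) v)⁻¹ • v

/-- The charts. -/
noncomputable def chartMap (K : Set E3) (z0 : E3) (i : Fin 3 × Bool) (z : ℝ × ℝ) : E3 :=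
  rad K z0 (face i.1 (if i.2 then 1 else -1) z)

lemma sgn_abs (b : Bool) : |(if b then (1:ℝ) else -1)| = 1 := by cases b <;> simp

section
variable {K : Set E3} {z0 : E3}

/-- Properties of the gauge that we use. -/
structure GaugeData (g : E3 → ℝ) (R L : ℝ) : Prop where
  R0 : 0 < R
  L0 : 0 < L
  conv : ∀ x y : E3, g (x + y) ≤ g x + g y
  smul : ∀ (a : ℝ) (x : E3), 0 ≤ a → g (a • x) = a * g x
  lower : ∀ x : E3, ‖x‖ / R ≤ g x
  lip : ∀ x y : E3, |g x - g y| ≤ L * ‖x - y‖

lemma gaugeData (hconv : Convex ℝ K) (hcomp : IsCompact K) (hz0 : z0 ∈ interior K) :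
    ∃ R L : ℝ, GaugeData (gauge ((fun x => x + z0) ⁻¹' K)) R L ∧
      ∀ x : E3, gauge ((fun x => x + z0) ⁻¹' K) (x - z0) = 1 ↔ x ∈ frontier K := by
  obtain ⟨K', hK'⟩ : ∃ K' : Set E3, K' = (fun x => x + z0) ⁻¹' K := ⟨_, rfl⟩
  rw [← hK']
  have hcont : Continuous (fun x : E3 => x + z0) := by fun_prop
  have hc : Convex ℝ K' := by
    rw [hK']
    intro x hx y hy a b ha hb hab
    have := hconv hx hy ha hb hab
    show a • x + b • y + z0 ∈ K
    have e : a • x + b • y + z0 = a • (x + z0) + b • (y + z0) := by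
      have : z0 = (a + b) • z0 := by rw [hab, one_smul]
      nth_rewrite 1 [this]
      rw [smul_add, smul_add, add_smul]; abel
    rw [e]; exact this
  have hn : K' ∈ 𝓝 (0 : E3) := by
    rw [hK']
    apply hcont.continuousAt.preimage_mem_nhds
    rw [zero_add]
    exact mem_interior_iff_mem_nhds.mp hz0
  obtain ⟨ρ, hρ, hball⟩ := Metric.mem_nhds_iff.mp hn
  have habs : Absorbent ℝ K' := absorbent_nhds_zero hn
  obtain ⟨R, hR⟩ := hcomp.isBounded.subset_closedBall z0
  have hsub : K' ⊆ closedBall 0 (|R| + 1) := by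
    intro x hx
    rw [hK'] at hx
    have h1 := hR hx
    rw [mem_closedBall, dist_eq_norm, add_sub_cancel_right] at h1
    rw [mem_closedBall_zero_iff]
    have := le_abs_self R
    linarith
  refine ⟨|R| + 1, ρ⁻¹, ⟨by positivity, by positivity, gauge_add_le hc habs, ?_, ?_, ?_⟩, ?_⟩
  · intro a x ha
    rw [gauge_smul_of_nonneg ha]; rfl
  · intro x
    exact le_gauge_of_subset_closedBall habs (by positivity) hsub
  · intro x y
    have hl := hc.lipschitzWith_gauge (r := Real.toNNReal ρ) (Real.toNNReal_pos.mpr hρ)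
      (by rwa [Real.coe_toNNReal _ hρ.le])
    have := hl.dist_le_mul x y
    rw [Real.dist_eq, dist_eq_norm, NNReal.coe_inv, Real.coe_toNNReal _ hρ.le] at this
    exact this
  · intro x
    rw [gauge_eq_one_iff_mem_frontier hc hn, hK']
    have := (Homeomorph.addRight z0).preimage_frontier K
    have h2 : x - z0 ∈ (Homeomorph.addRight z0) ⁻¹' frontier K ↔ x ∈ frontier K := by
      show x - z0 + z0 ∈ frontier K ↔ _
      rw [sub_add_cancel]
    rw [← h2, this]
    rfl

variable {g : E3 → ℝ} {R L : ℝ}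

lemma GaugeData.pos (h : GaugeData g R L) {x : E3} (hx : x ≠ 0) : 0 < g x :=
  lt_of_lt_of_le (div_pos (norm_pos_iff.mpr hx) h.R0) (h.lower x)

lemma GaugeData.inv_le (h : GaugeData g R L) {x : E3} (hx : 1 ≤ ‖x‖) : (g x)⁻¹ ≤ R := by
  have h0 := h.R0
  have h1 : R⁻¹ ≤ g x := by
    refine le_trans ?_ (h.lower x)
    rw [div_eq_mul_inv]
    nlinarith [inv_pos.mpr h0]
  exact inv_le_of_inv_le₀ h0 h1

/-- the map `v ↦ v / g v` is Lipschitz on bounded sets away from zero -/
lemma GaugeData.lip_rad (h : GaugeData g R L) {x y : E3} (hx : 1 ≤ ‖x‖) (hy : 1 ≤ ‖y‖)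
    (hx3 : ‖x‖ ≤ 3) : ‖(g x)⁻¹ • x - (g y)⁻¹ • y‖ ≤ (3 * R ^ 2 * L + R) * ‖x - y‖ := by
  have hR := h.R0
  have hL := h.L0
  have hx0 : x ≠ 0 := by rintro rfl; simp at hx; linarith
  have hy0 : y ≠ 0 := by rintro rfl; simp at hy; linarith
  have gx := h.pos hx0
  have gy := h.pos hy0
  have ix := h.inv_le hx
  have iy := h.inv_le hy
  have e : (g x)⁻¹ • x - (g y)⁻¹ • y = ((g x)⁻¹ - (g y)⁻¹) • x + (g y)⁻¹ • (x - y) := by
    rw [sub_smul, smul_sub]; abel
  rw [e]
  refine (norm_add_le _ _).trans ?_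
  rw [norm_smul, norm_smul, Real.norm_eq_abs, Real.norm_eq_abs, abs_of_pos (inv_pos.mpr gy)]
  have h1 : |(g x)⁻¹ - (g y)⁻¹| ≤ R ^ 2 * (L * ‖x - y‖) := by
    have e2 : (g x)⁻¹ - (g y)⁻¹ = (g x)⁻¹ * (g y)⁻¹ * (g y - g x) := by
      field_simp
    rw [e2, abs_mul, abs_of_pos (by positivity)]
    have h3 : |g y - g x| ≤ L * ‖x - y‖ := by rw [abs_sub_comm]; exact h.lip x y
    have h4 : (g x)⁻¹ * (g y)⁻¹ ≤ R ^ 2 := by
      rw [sq]; exact mul_le_mul ix iy (inv_pos.mpr gy).le hR.le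
    exact mul_le_mul h4 h3 (abs_nonneg _) (by positivity)
  have h5 : |(g x)⁻¹ - (g y)⁻¹| * ‖x‖ ≤ R ^ 2 * (L * ‖x - y‖) * 3 :=
    mul_le_mul h1 hx3 (norm_nonneg _) (by positivity)
  have h6 : (g y)⁻¹ * ‖x - y‖ ≤ R * ‖x - y‖ := mul_le_mul_of_nonneg_right iy (norm_nonneg _)
  linarith

end

section final
variable {K : Set E3} {z0 : E3} {R L : ℝ}

/-- the constant `C` -/
lemma chart_ok (hg : GaugeData (gauge ((fun x => x + z0) ⁻¹' K)) R L)
    (hfr : ∀ x : E3, gauge ((fun x => x + z0) ⁻¹' K) (x - z0) = 1 ↔ x ∈ frontier K)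
    (i : Fin 3 × Bool) : Chart (frontier K) (chartMap K z0 i) ((3 * R ^ 2 * L + R) * 2) := by
  have hR := hg.R0
  have hL := hg.L0
  refine ⟨by positivity, ?_, ?_⟩
  · intro x hx y hy
    rw [dist_eq_norm, dist_eq_norm]
    have hs := sgn_abs i.2
    have e : chartMap K z0 i x - chartMap K z0 i y =
        (gauge ((fun x => x + z0) ⁻¹' K) (face i.1 (if i.2 then 1 else -1) x))⁻¹ •
          (face i.1 (if i.2 then 1 else -1) x) -
        (gauge ((fun x => x + z0) ⁻¹' K) (face i.1 (if i.2 then 1 else -1) y))⁻¹ •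
          (face i.1 (if i.2 then 1 else -1) y) := by
      unfold chartMap rad
      abel
    rw [e]
    refine (hg.lip_rad (one_le_norm_face _ hs _) (one_le_norm_face _ hs _)
      (norm_face_le _ hs hx)).trans ?_
    rw [face_sub]
    have h1 := mul_le_mul_of_nonneg_left (norm_ell_le i.1 (x - y))
      (by positivity : 0 ≤ 3 * R ^ 2 * L + R)
    linarith
  · intro x _
    rw [← hfr]
    have hs := sgn_abs i.2
    have hne : face i.1 (if i.2 then 1 else -1) x ≠ 0 := by
      intro h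
      have := one_le_norm_face i.1 hs x
      rw [h, norm_zero] at this
      linarith
    have hpos := hg.pos hne
    unfold chartMap rad
    rw [add_sub_cancel_left, hg.smul _ _ (inv_pos.mpr hpos).le]
    field_simp

lemma chart_diff (hg : GaugeData (gauge ((fun x => x + z0) ⁻¹' K)) R L) (i : Fin 3 × Bool) :
    ∀ᵐ x : ℝ × ℝ, x ∈ ball (0 : ℝ × ℝ) 1 →
      ∃ A : ℝ × ℝ →L[ℝ] E3, Function.Injective A ∧ HasStrictFDerivAt (chartMap K z0 i) A x := by
  obtain ⟨s, hs⟩ : ∃ s : ℝ, s = (if i.2 then (1:ℝ) else -1) := ⟨_, rfl⟩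
  have hsabs : |s| = 1 := by rw [hs]; exact sgn_abs i.2
  have hs0 : s ≠ 0 := by rintro rfl; simp at hsabs
  obtain ⟨g, hgd⟩ : ∃ g : E3 → ℝ, g = gauge ((fun x => x + z0) ⁻¹' K) := ⟨_, rfl⟩
  rw [← hgd] at hg
  obtain ⟨G, hG⟩ : ∃ G : ℝ × ℝ → ℝ, G = fun z => g (face i.1 s z) := ⟨_, rfl⟩
  have hGconv : ConvexOn ℝ univ G := by
    refine ⟨convex_univ, ?_⟩
    intro x _ y _ a b ha hb hab
    rw [hG]
    simp only [smul_eq_mul]
    have e : face i.1 s (a • x + b • y) = a • face i.1 s x + b • face i.1 s y := by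
      unfold face
      rw [map_add, map_smul, map_smul, smul_add, smul_add]
      have : (EuclideanSpace.single i.1 s : E3) = (a + b) • EuclideanSpace.single i.1 s := by
        rw [hab, one_smul]
      nth_rewrite 1 [this]
      rw [add_smul]; abel
    rw [e]
    refine (hg.conv _ _).trans ?_
    rw [hg.smul _ _ ha, hg.smul _ _ hb]
  have hL := hg.L0
  have hGlip : LipschitzWith (Real.toNNReal (L * 2)) G := by
    apply LipschitzWith.of_dist_le_mul
    intro x y
    rw [Real.dist_eq, hG, Real.coe_toNNReal _ (by positivity), dist_eq_norm]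
    refine (hg.lip _ _).trans ?_
    rw [face_sub, mul_assoc]
    exact mul_le_mul_of_nonneg_left (norm_ell_le _ _) hL.le
  filter_upwards [hGlip.ae_differentiableAt (μ := (volume : Measure (ℝ × ℝ)))] with x hx _
  have hst := strict_of_convex hGconv hx
  obtain ⟨G', hG'⟩ : ∃ G', G' = fderiv ℝ G x := ⟨_, rfl⟩
  rw [← hG'] at hst
  have hne : face i.1 s x ≠ 0 := by
    intro h
    have := one_le_norm_face i.1 hsabs x
    rw [h, norm_zero] at this
    linarith
  have hGpos : 0 < G x := by rw [hG]; exact hg.pos hne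
  have hinv : HasStrictFDerivAt (fun z => (G z)⁻¹) ((-((G x) ^ 2)⁻¹) • G') x :=
    (hasStrictDerivAt_inv hGpos.ne').comp_hasStrictFDerivAt x hst
  have hface : HasStrictFDerivAt (fun z => face i.1 s z) (ell i.1) x := by
    unfold face
    exact (ell i.1).hasStrictFDerivAt.const_add _
  have hprod := hinv.smul hface
  have hfull := hprod.const_add z0
  refine ⟨(G x)⁻¹ • ell i.1 + (-(G x ^ 2)⁻¹ • G').smulRight (face i.1 s x), ?_, ?_⟩
  rotate_left
  · have e : chartMap K z0 i = fun z => z0 + (fun z => (G z)⁻¹) z • (fun z => face i.1 s z) z := by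
      funext z
      simp only [chartMap, rad, ← hs, ← hgd, hG]
    rw [e]
    exact hfull
  · rw [injective_iff_map_eq_zero]
    intro v hv
    simp only [add_apply, smul_apply,
      ContinuousLinearMap.smulRight_apply] at hv
    have h1 := congrArg (fun w : E3 => w i.1) hv
    simp only [PiLp.add_apply, PiLp.smul_apply, face_self, ell_self, smul_eq_mul, mul_zero,
      zero_add, PiLp.zero_apply] at h1
    have h2 : (-((G x) ^ 2)⁻¹) * G' v = 0 := by
      rcases mul_eq_zero.mp h1 with h | h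
      · exact h
      · exact absurd h hs0
    rw [smul_eq_mul, h2, zero_smul, add_zero] at hv
    have h3 : ell i.1 v = 0 := by
      rcases smul_eq_zero.mp hv with h | h
      · exact absurd h (inv_ne_zero hGpos.ne')
      · exact h
    ext
    · have := congrArg (fun w : E3 => w (i.1 + 1)) h3
      simpa [ell_one] using this
    · have := congrArg (fun w : E3 => w (i.1 + 2)) h3
      simpa [ell_two] using this

lemma face_other {i j : Fin 3} (hij : j ≠ i) {s : ℝ} {z : ℝ × ℝ} (hz : z ∈ ball (0 : ℝ × ℝ) 1) :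
    |face i s z j| < 1 := by
  rw [mem_ball, Prod.dist_eq, Real.dist_eq, Real.dist_eq, sup_lt_iff] at hz
  simp only [Prod.fst_zero, Prod.snd_zero, sub_zero] at hz
  rcases three i j with rfl | rfl | rfl
  · exact absurd rfl hij
  · rw [face_one]; exact hz.1
  · rw [face_two]; exact hz.2

lemma chart_inj (hg : GaugeData (gauge ((fun x => x + z0) ⁻¹' K)) R L) (i j : Fin 3 × Bool)
    (x : ℝ × ℝ) (hx : x ∈ ball (0 : ℝ × ℝ) 1) (y : ℝ × ℝ) (hy : y ∈ ball (0 : ℝ × ℝ) 1)
    (h : chartMap K z0 i x = chartMap K z0 j y) : i = j ∧ x = y := by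
  obtain ⟨i, b⟩ := i
  obtain ⟨j, c⟩ := j
  obtain ⟨s, hs⟩ : ∃ s : ℝ, s = (if b then (1:ℝ) else -1) := ⟨_, rfl⟩
  obtain ⟨t, ht⟩ : ∃ t : ℝ, t = (if c then (1:ℝ) else -1) := ⟨_, rfl⟩
  have hsabs : |s| = 1 := by rw [hs]; exact sgn_abs b
  have htabs : |t| = 1 := by rw [ht]; exact sgn_abs c
  simp only [chartMap, rad, ← hs, ← ht] at h
  have h' := add_left_cancel h
  have hne : ∀ (i : Fin 3) (s : ℝ) (_ : |s| = 1) (x : ℝ × ℝ), face i s x ≠ 0 := by
    intro i s hsabs x h
    have := one_le_norm_face i hsabs x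
    rw [h, norm_zero] at this
    linarith
  obtain ⟨α, hα⟩ : ∃ α, α = (gauge ((fun x => x + z0) ⁻¹' K) (face i s x))⁻¹ := ⟨_, rfl⟩
  obtain ⟨β, hβ⟩ : ∃ β, β = (gauge ((fun x => x + z0) ⁻¹' K) (face j t y))⁻¹ := ⟨_, rfl⟩
  have hα0 : 0 < α := by rw [hα]; exact inv_pos.mpr (hg.pos (hne _ _ hsabs _))
  have hβ0 : 0 < β := by rw [hβ]; exact inv_pos.mpr (hg.pos (hne _ _ htabs _))
  rw [← hα, ← hβ] at h'
  have hcoord : ∀ m, α * face i s x m = β * face j t y m := by
    intro m
    have := congrArg (fun w : E3 => w m) h'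
    simpa using this
  have hij : i = j := by
    by_contra hij
    have h1 := congrArg abs (hcoord i)
    have h2 := congrArg abs (hcoord j)
    rw [face_self, abs_mul, abs_mul, abs_of_pos hα0, abs_of_pos hβ0, hsabs] at h1
    rw [face_self, abs_mul, abs_mul, abs_of_pos hα0, abs_of_pos hβ0, htabs] at h2
    have h3 := face_other (s := t) hij hy
    have h4 := face_other (s := s) (Ne.symm hij) hx
    nlinarith
  subst hij
  have h1 := hcoord i
  rw [face_self, face_self] at h1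
  have h2 := congrArg abs h1
  rw [abs_mul, abs_mul, abs_of_pos hα0, abs_of_pos hβ0, hsabs, htabs] at h2
  have hαβ : α = β := by linarith
  rw [← hαβ] at h1
  have hst : s = t := mul_left_cancel₀ hα0.ne' h1
  have hbc : b = c := by
    rw [hs, ht] at hst
    cases b <;> cases c <;> first | rfl | (norm_num at hst)
  refine ⟨by rw [hbc], ?_⟩
  ext
  · have := hcoord (i + 1)
    rw [face_one, face_one, ← hαβ] at this
    exact mul_left_cancel₀ hα0.ne' this
  · have := hcoord (i + 2)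
    rw [face_two, face_two, ← hαβ] at this
    exact mul_left_cancel₀ hα0.ne' this

/-- points of a closed face -/
def InFace (i : Fin 3 × Bool) (v : E3) : Prop :=
  v i.1 = (if i.2 then (1:ℝ) else -1) ∧ ∀ m, |v m| ≤ 1

lemma inFace_chart {i : Fin 3 × Bool} {v : E3} (h : InFace i v) :
    ((v (i.1 + 1), v (i.1 + 2)) : ℝ × ℝ) ∈ Q0 ∧
      chartMap K z0 i (v (i.1 + 1), v (i.1 + 2)) = rad K z0 v := by
  refine ⟨mem_Q0.mpr ⟨h.2 _, h.2 _⟩, ?_⟩
  unfold chartMap
  rw [← h.1, face_surj]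

lemma face_inFace {i : Fin 3 × Bool} {z : ℝ × ℝ} (hz : z ∈ Q0) :
    InFace i (face i.1 (if i.2 then 1 else -1) z) := by
  refine ⟨face_self _ _ _, fun m => ?_⟩
  rw [mem_Q0] at hz
  rcases three i.1 m with rfl | rfl | rfl
  · rw [face_self, sgn_abs]
  · rw [face_one]; exact hz.1
  · rw [face_two]; exact hz.2

lemma chart_surj (hg : GaugeData (gauge ((fun x => x + z0) ⁻¹' K)) R L)
    (hfr : ∀ x : E3, gauge ((fun x => x + z0) ⁻¹' K) (x - z0) = 1 ↔ x ∈ frontier K)
    (x : E3) (hx : x ∈ frontier K) : ∃ i v, InFace i v ∧ rad K z0 v = x := by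
  have h1 := (hfr x).mpr hx
  obtain ⟨y, hy⟩ : ∃ y, y = x - z0 := ⟨_, rfl⟩
  rw [← hy] at h1
  have hy0 : y ≠ 0 := by
    rintro rfl
    have := hg.smul 0 0 le_rfl
    rw [zero_smul, zero_mul] at this
    rw [this] at h1
    exact zero_ne_one h1
  obtain ⟨i, -, hi⟩ := Finset.exists_max_image (Finset.univ : Finset (Fin 3)) (fun m => |y m|)
    ⟨0, Finset.mem_univ _⟩
  have hyi : 0 < |y i| := by
    by_contra hcon
    push Not at hcon
    apply hy0
    ext m
    have := (hi m (Finset.mem_univ _)).trans hcon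
    have h2 := abs_nonneg (y m)
    have : |y m| = 0 := le_antisymm this h2
    simpa using this
  obtain ⟨v, hv⟩ : ∃ v : E3, v = |y i|⁻¹ • y := ⟨_, rfl⟩
  have hvm : ∀ m, v m = |y i|⁻¹ * y m := fun m => by rw [hv]; rfl
  refine ⟨(i, decide (0 < y i)), v, ⟨?_, ?_⟩, ?_⟩
  · rw [hvm]
    simp only [decide_eq_true_eq]
    split_ifs with h
    · rw [abs_of_pos h]; exact inv_mul_cancel₀ h.ne'
    · push Not at h
      have hne : y i ≠ 0 := abs_pos.mp hyi
      rw [abs_of_nonpos h, inv_neg, neg_mul, inv_mul_cancel₀ hne]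
  · intro m
    rw [hvm, abs_mul, abs_of_pos (inv_pos.mpr hyi), inv_mul_le_iff₀ hyi, mul_one]
    exact hi m (Finset.mem_univ _)
  · unfold rad
    rw [hv, hg.smul _ _ (inv_pos.mpr hyi).le, h1, mul_one, inv_inv, smul_smul,
      mul_inv_cancel₀ hyi.ne', one_smul, hy]
    abel

theorem convex_chartSystem (hconv : Convex ℝ K) (hcomp : IsCompact K) (hz0 : z0 ∈ interior K) :
    ∃ C D : ℝ, ChartSystem (frontier K) (chartMap K z0) C D ∧ (frontier K).Nonempty := by
  obtain ⟨R, L, hg, hfr⟩ := gaugeData hconv hcomp hz0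
  have hR := hg.R0
  have hL := hg.L0
  obtain ⟨C, hC⟩ : ∃ C, C = (3 * R ^ 2 * L + R) * 2 := ⟨_, rfl⟩
  have hch : ∀ i, Chart (frontier K) (chartMap K z0 i) C := by
    intro i
    rw [hC]; exact chart_ok hg hfr i
  have hC0 : 0 < C := by rw [hC]; positivity
  have hface : ∀ i v w, InFace i v → InFace i w →
      Cov (frontier K) ∅ (rad K z0 v) (rad K z0 w) (C * 2) := by
    intro i v w hv hw
    obtain ⟨h1, h2⟩ := inFace_chart (K := K) (z0 := z0) hv
    obtain ⟨h3, h4⟩ := inFace_chart (K := K) (z0 := z0) hw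
    have := ((hch i).seg' h1 h3 (c := 2) (by norm_num) (dist_le_two h1 h3)).subset
      (empty_subset _)
    rwa [h2, h4] at this
  refine ⟨C, C * 2 + C * 2 + C * 2, ⟨hch, ?_, chart_inj hg, chart_diff hg, by positivity, ?_⟩, ?_⟩
  · intro x hx
    obtain ⟨i, v, hv, rfl⟩ := chart_surj hg hfr x hx
    obtain ⟨h1, h2⟩ := inFace_chart (K := K) (z0 := z0) hv
    exact ⟨i, _, h1, h2⟩
  · intro p hp q hq
    obtain ⟨⟨i, b⟩, v, hv, rfl⟩ := chart_surj hg hfr p hp
    obtain ⟨⟨j, c⟩, w, hw, rfl⟩ := chart_surj hg hfr q hq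
    obtain ⟨k, hki, hkj⟩ : ∃ k : Fin 3, k ≠ i ∧ k ≠ j := by
      fin_cases i <;> fin_cases j <;> decide
    obtain ⟨corner, hcorner⟩ : ∃ corner : Fin 3 × Bool → E3,
        corner = fun i => WithLp.toLp 2 (fun m => if m = i.1 then (if i.2 then (1:ℝ) else -1) else 1) :=
      ⟨_, rfl⟩
    have hcm : ∀ i m, corner i m = if m = i.1 then (if i.2 then (1:ℝ) else -1) else 1 := by
      intro i m; rw [hcorner]
    have hcabs : ∀ i m, |corner i m| ≤ 1 := by
      intro i m
      rw [hcm]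
      split_ifs <;> simp
    have hcself : ∀ i, InFace i (corner i) := fun i => ⟨by rw [hcm]; simp, hcabs i⟩
    have hck : ∀ i : Fin 3 × Bool, k ≠ i.1 → InFace (k, true) (corner i) := fun i hk =>
      ⟨by rw [hcm]; simp [hk], hcabs i⟩
    have h1 := hface (i, b) v (corner (i, b)) hv (hcself _)
    have h2 := hface (k, true) (corner (i, b)) (corner (j, c)) (hck _ hki) (hck _ hkj)
    have h3 := hface (j, c) (corner (j, c)) w (hcself _) hw
    have := (h1.concat h2).concat h3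
    simpa using this
  · exact ⟨_, (hch (0, true)).maps 0 (mem_closedBall_self zero_le_one)⟩

end final

end Pool.Agent.H985.Dense
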