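import Mathlib

set_option autoImplicit false
open MeasureTheory Set Metric
open scoped ENNReal NNReal

namespace Pool.Agent.H985.Dense

variable {E : Type*} [MetricSpace E]

/-- `Cov S V p q ℓ`: there is a curve in `S` from `p` to `q` through all points of `V`, parametrised
on `[0, ℓ]` with speed at most one. -/
def Cov (S V : Set E) (p q : E) (ℓ : ℝ) : Prop :=
  0 ≤ ℓ ∧ ∃ γ : ℝ → E, (∀ s t, 0 ≤ s → s ≤ t → t ≤ ℓ → dist (γ s) (γ t) ≤ t - s) ∧
    MapsTo γ (Icc 0 ℓ) S ∧ γ 0 = p ∧ γ ℓ = q ∧ V ⊆ γ '' Icc 0 ℓ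

lemma Cov.refl {S : Set E} {p : E} (hp : p ∈ S) : Cov S {p} p p 0 := by
  refine ⟨le_rfl, fun _ => p, ?_, fun _ _ => hp, rfl, rfl, ?_⟩
  · intro s t _ h _; rw [dist_self]; linarith
  · rintro x rfl
    exact ⟨0, by simp, rfl⟩

lemma Cov.subset {S V W : Set E} {p q : E} {a : ℝ} (h : Cov S V p q a) (hW : W ⊆ V) :
    Cov S W p q a := by
  obtain ⟨h0, γ, h1, h2, h3, h4, h5⟩ := h
  exact ⟨h0, γ, h1, h2, h3, h4, hW.trans h5⟩

lemma Cov.concat {S V W : Set E} {p q r : E} {a b : ℝ} (h1 : Cov S V p q a)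
    (h2 : Cov S W q r b) : Cov S (V ∪ W) p r (a + b) := by
  obtain ⟨ha, γ, g1, g2, g3, g4, g5⟩ := h1
  obtain ⟨hb, κ, k1, k2, k3, k4, k5⟩ := h2
  refine ⟨by linarith, fun u => if u ≤ a then γ u else κ (u - a), ?_, ?_, ?_, ?_, ?_⟩
  · intro s t hs hst ht
    by_cases h : t ≤ a
    · simp only [h, if_true, hst.trans h]
      exact g1 s t hs hst h
    · push Not at h
      by_cases h' : s ≤ a
      · simp only [h', if_true, not_le.mpr h, if_false]
        have e1 := g1 s a hs h' le_rfl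
        have e2 := k1 0 (t - a) le_rfl (by linarith) (by linarith)
        rw [g4] at e1
        rw [k3] at e2
        have := dist_triangle (γ s) q (κ (t - a))
        linarith
      · push Not at h'
        simp only [not_le.mpr h, not_le.mpr h', if_false]
        have := k1 (s - a) (t - a) (by linarith) (by linarith) (by linarith)
        linarith
  · intro u hu
    by_cases h : u ≤ a
    · simp only [h, if_true]; exact g2 ⟨hu.1, h⟩
    · simp only [h, if_false]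
      push Not at h
      exact k2 ⟨by linarith, by linarith [hu.2]⟩
  · simp [ha, g3]
  · by_cases h : b = 0
    · subst h
      simp only [add_zero, le_refl, if_true]
      rw [g4, ← k3, k4]
    · have : 0 < b := lt_of_le_of_ne hb (Ne.symm h)
      have h' : ¬ (a + b ≤ a) := by linarith
      simp only [h', if_false]
      rw [add_sub_cancel_left, k4]
  · rintro x (hx | hx)
    · obtain ⟨u, hu, rfl⟩ := g5 hx
      exact ⟨u, ⟨hu.1, by linarith [hu.2]⟩, by simp [hu.2]⟩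
    · obtain ⟨u, hu, rfl⟩ := k5 hx
      by_cases h : u = 0
      · subst h
        refine ⟨a, ⟨ha, by linarith⟩, ?_⟩
        simp [g4, k3]
      · have : 0 < u := lt_of_le_of_ne hu.1 (Ne.symm h)
        refine ⟨a + u, ⟨by linarith, by linarith [hu.2]⟩, ?_⟩
        have h' : ¬ (a + u ≤ a) := by linarith
        simp only [h', if_false]
        rw [add_sub_cancel_left]

lemma Cov.symm {S V : Set E} {p q : E} {a : ℝ} (h : Cov S V p q a) : Cov S V q p a := by
  obtain ⟨h0, γ, h1, h2, h3, h4, h5⟩ := h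
  refine ⟨h0, fun u => γ (a - u), ?_, ?_, ?_, ?_, ?_⟩
  · intro s t hs hst ht
    have := h1 (a - t) (a - s) (by linarith) (by linarith) (by linarith)
    rw [dist_comm]; linarith
  · intro u hu
    exact h2 ⟨by linarith [hu.2], by linarith [hu.1]⟩
  · simp [h4]
  · simp [h3]
  · intro x hx
    obtain ⟨u, hu, rfl⟩ := h5 hx
    exact ⟨a - u, ⟨by linarith [hu.2], by linarith [hu.1]⟩, by simp⟩

lemma Cov.left_mem {S V : Set E} {p q : E} {a : ℝ} (h : Cov S V p q a) : p ∈ S := by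
  obtain ⟨h0, γ, h1, h2, h3, h4, h5⟩ := h
  rw [← h3]; exact h2 ⟨le_rfl, h0⟩

lemma Cov.right_mem {S V : Set E} {p q : E} {a : ℝ} (h : Cov S V p q a) : q ∈ S := h.symm.left_mem

lemma Cov.mono {S V : Set E} {p q : E} {a b : ℝ} (h : Cov S V p q a) (hab : a ≤ b) :
    Cov S V p q b := by
  have hq := h.right_mem
  have h2 : Cov S {q} q q (b - a) := by
    refine ⟨by linarith, fun _ => q, ?_, fun _ _ => hq, rfl, rfl, ?_⟩
    · intro s t _ h _; rw [dist_self]; linarith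
    · rintro x rfl
      exact ⟨0, by simp [hab], rfl⟩
  have := (h.concat h2).subset (subset_union_left (s := V) (t := {q}))
  rwa [add_sub_cancel] at this

/-- A segment in a chart. -/
lemma Cov.segment {F : Type*} [AddCommGroup F] [Module ℝ F] {S : Set E} {ψ : F → E} {x y : F}
    {ℓ : ℝ} (hℓ : 0 < ℓ)
    (hmap : ∀ s : ℝ, 0 ≤ s → s ≤ 1 → ψ (x + s • (y - x)) ∈ S)
    (hlip : ∀ s t : ℝ, 0 ≤ s → s ≤ t → t ≤ 1 →
      dist (ψ (x + s • (y - x))) (ψ (x + t • (y - x))) ≤ ℓ * (t - s)) :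
    Cov S (ψ '' {z | ∃ s : ℝ, 0 ≤ s ∧ s ≤ 1 ∧ z = x + s • (y - x)}) (ψ x) (ψ y) ℓ := by
  refine ⟨hℓ.le, fun u => ψ (x + (u / ℓ) • (y - x)), ?_, ?_, ?_, ?_, ?_⟩
  · intro s t hs hst ht
    have := hlip (s / ℓ) (t / ℓ) (div_nonneg hs hℓ.le) (div_le_div_of_nonneg_right hst hℓ.le)
      (by rw [div_le_one hℓ]; exact ht)
    have e : ℓ * (t / ℓ - s / ℓ) = t - s := by field_simp
    rwa [e] at this
  · intro u hu
    exact hmap _ (div_nonneg hu.1 hℓ.le) (by rw [div_le_one hℓ]; exact hu.2)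
  · simp
  · simp [hℓ.ne']
  · rintro _ ⟨z, ⟨s, hs0, hs1, rfl⟩, rfl⟩
    refine ⟨s * ℓ, ⟨by positivity, by nlinarith⟩, ?_⟩
    simp [hℓ.ne']

/-- Conversion to a rectifiable path on `[0,1]`. -/
lemma Cov.path {S V : Set E} {p q : E} {ℓ : ℝ} (h : Cov S V p q ℓ) :
    ∃ γ : ℝ → E, ContinuousOn γ (Icc 0 1) ∧ MapsTo γ (Icc 0 1) S ∧ γ 0 = p ∧ γ 1 = q ∧
      eVariationOn γ (Icc 0 1) ≤ ENNReal.ofReal ℓ ∧ V ⊆ γ '' Icc 0 1 := by
  obtain ⟨h0, γ, h1, h2, h3, h4, h5⟩ := h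
  have hmem : ∀ u ∈ Icc (0:ℝ) 1, 0 ≤ ℓ * u ∧ ℓ * u ≤ ℓ := fun u hu =>
    ⟨mul_nonneg h0 hu.1, by nlinarith [hu.2]⟩
  have hl : LipschitzOnWith (Real.toNNReal ℓ) (fun u => γ (ℓ * u)) (Icc 0 1) := by
    apply LipschitzOnWith.of_dist_le_mul
    intro x hx y hy
    rw [Real.coe_toNNReal _ h0]
    rcases le_total x y with hxy | hxy
    · have := h1 (ℓ * x) (ℓ * y) (hmem x hx).1 (by nlinarith) (hmem y hy).2
      rw [Real.dist_eq, abs_sub_comm, abs_of_nonneg (by linarith)]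
      linarith
    · have := h1 (ℓ * y) (ℓ * x) (hmem y hy).1 (by nlinarith) (hmem x hx).2
      rw [dist_comm, Real.dist_eq, abs_of_nonneg (by linarith)]
      linarith
  refine ⟨fun u => γ (ℓ * u), hl.continuousOn, ?_, ?_, ?_, ?_, ?_⟩
  · intro u hu
    exact h2 ⟨(hmem u hu).1, (hmem u hu).2⟩
  · simp [h3]
  · simp [h4]
  · have hv := hl.comp_eVariationOn_le (f := fun u => γ (ℓ * u)) (g := id) (s := Icc (0:ℝ) 1)
      (fun x hx => hx)
    have hid : eVariationOn (id : ℝ → ℝ) (Icc 0 1) ≤ 1 := by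
      have := (monotone_id.monotoneOn (Icc (0:ℝ) 1)).eVariationOn_eq (left_mem_Icc.mpr zero_le_one)
        (right_mem_Icc.mpr zero_le_one)
      simp only [inter_self, id_eq, sub_zero, ENNReal.ofReal_one] at this
      exact this.le
    refine hv.trans ?_
    calc _ ≤ (Real.toNNReal ℓ : ℝ≥0∞) * 1 := by gcongr
      _ = _ := by rw [mul_one]; rfl
  · intro x hx
    obtain ⟨u, hu, rfl⟩ := h5 hx
    rcases h0.eq_or_lt with h | h
    · rw [← h] at hu
      have : u = 0 := le_antisymm hu.2 hu.1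
      refine ⟨0, by simp, by simp [this]⟩
    · refine ⟨u / ℓ, ⟨div_nonneg hu.1 h0, by rw [div_le_one h]; exact hu.2⟩, ?_⟩
      simp only
      rw [mul_div_cancel₀ _ h.ne']

end Pool.Agent.H985.Dense
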