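import Mathlib

set_option autoImplicit false
open MeasureTheory Set Metric
open scoped ENNReal NNReal

namespace Pool.Agent.H985.Dense

variable {E : Type*} [MetricSpace E]

/-- `γ` (restricted to `[0,1]`) is a continuous path in `S`. -/
def IsPath (S : Set E) (γ : ℝ → E) : Prop :=
  ContinuousOn γ (Icc 0 1) ∧ ∀ t ∈ Icc (0:ℝ) 1, γ t ∈ S

/-- The length of the path `γ` on `[0,1]` (possibly infinite). -/
noncomputable def pathLength (γ : ℝ → E) : ℝ≥0∞ := eVariationOn γ (Icc 0 1)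

/-- The intrinsic distance of `S`: the infimum of the lengths of the paths in `S` from `x` to `y`. -/
noncomputable def intrinsicDist (S : Set E) (x y : E) : ℝ≥0∞ :=
  ⨅ (γ : ℝ → E) (_ : IsPath S γ ∧ γ 0 = x ∧ γ 1 = y), pathLength γ

/-- `γ` is a rectifiable curve in `S` that is `ε`-dense in `S` for the intrinsic distance. -/
def IsDenseCurve (S : Set E) (ε : ℝ) (γ : ℝ → E) : Prop :=
  IsPath S γ ∧ pathLength γ ≠ ⊤ ∧
    ∀ x ∈ S, ∃ t ∈ Icc (0:ℝ) 1, intrinsicDist S x (γ t) ≤ ENNReal.ofReal ε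

/-- `L_S(ε)`: the infimum of the lengths of the rectifiable `ε`-dense curves in `S`. -/
noncomputable def minLength (S : Set E) (ε : ℝ) : ℝ≥0∞ :=
  ⨅ (γ : ℝ → E) (_ : IsDenseCurve S ε γ), pathLength γ

end Pool.Agent.H985.Dense
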