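import Pool.Agent.H985.Dense.Upper
import Pool.Agent.H985.Dense.Defs

set_option autoImplicit false
open MeasureTheory Set Metric Filter
open scoped ENNReal NNReal RealInnerProductSpace Topology

namespace Pool.Agent.H985.Dense

section basic
variable {E : Type*} [MetricSpace E]

lemma edist_le_intrinsicDist (S : Set E) (x y : E) : edist x y ≤ intrinsicDist S x y := by
  unfold intrinsicDist
  refine le_iInf₂ fun γ hγ => ?_
  obtain ⟨-, rfl, rfl⟩ := hγ
  exact eVariationOn.edist_le γ (left_mem_Icc.mpr zero_le_one) (right_mem_Icc.mpr zero_le_one)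

lemma minLength_le {S V : Set E} {p q : E} {ℓ ε : ℝ} (h : Cov S V p q ℓ)
    (hd : ∀ x ∈ S, ∃ v ∈ V, Cov S ∅ x v ε) : minLength S ε ≤ ENNReal.ofReal ℓ := by
  obtain ⟨γ, h1, h2, -, -, h5, h6⟩ := h.path
  refine (iInf₂_le γ ⟨⟨h1, h2⟩, ?_, ?_⟩).trans h5
  · exact ne_top_of_le_ne_top ENNReal.ofReal_ne_top h5
  · intro x hx
    obtain ⟨v, hv, hc⟩ := hd x hx
    obtain ⟨t, ht, rfl⟩ := h6 hv
    refine ⟨t, ht, ?_⟩
    obtain ⟨κ, k1, k2, k3, k4, k5, -⟩ := hc.path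
    exact (iInf₂_le κ ⟨⟨k1, k2⟩, k3, k4⟩).trans k5

end basic

lemma HE_prod : ∃ c : ℝ≥0, ∀ s : Set (ℝ × ℝ), μHE[2] s = c * volume s := by
  refine ⟨Measure.addHaarScalarFactor (volume : Measure (EuclideanSpace ℝ (Fin 2)))
    (μH[(2 : ℕ)]), fun s => ?_⟩
  rw [Measure.euclideanHausdorffMeasure_def, Measure.smul_apply]
  have e : (μH[((2 : ℕ) : ℝ)] : Measure (ℝ × ℝ)) = volume := by
    rw [← hausdorffMeasure_prod_real]; norm_num
  rw [e]
  rfl

variable {E : Type*} [NormedAddCommGroup E] [InnerProductSpace ℝ E] [MeasurableSpace E]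
  [BorelSpace E]

/-- A finite system of charts covering `S`. -/
structure ChartSystem {I : Type*} (S : Set E) (ψ : I → ℝ × ℝ → E) (C D : ℝ) : Prop where
  chart : ∀ i, Chart S (ψ i) C
  surj : ∀ x ∈ S, ∃ i, ∃ z ∈ Q0, ψ i z = x
  inj : ∀ i j, ∀ x ∈ ball (0 : ℝ × ℝ) 1, ∀ y ∈ ball (0 : ℝ × ℝ) 1, ψ i x = ψ j y → i = j ∧ x = y
  diff : ∀ i, ∀ᵐ x : ℝ × ℝ, x ∈ ball (0 : ℝ × ℝ) 1 →
      ∃ A : ℝ × ℝ →L[ℝ] E, Function.Injective A ∧ HasStrictFDerivAt (ψ i) A x
  nonneg : 0 ≤ D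
  conn : ∀ p ∈ S, ∀ q ∈ S, Cov S ∅ p q D

variable {I : Type*} [Fintype I] {S : Set E} {ψ : I → ℝ × ℝ → E} {C D : ℝ}

lemma Chart.lipOn {E : Type*} [MetricSpace E] {C : ℝ} {S : Set E} {ψ : ℝ × ℝ → E} (h : Chart S ψ C) :
    LipschitzOnWith (Real.toNNReal C) ψ Q0 := by
  apply LipschitzOnWith.of_dist_le_mul
  intro p hp q hq
  rw [Real.coe_toNNReal _ h.pos.le]
  exact h.lip p hp q hq

omit [Fintype I] in
lemma Chart.HE_image_le {S : Set E} {ψ : ℝ × ℝ → E} (h : Chart S ψ C) {c : ℝ≥0}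
    (hc : ∀ s : Set (ℝ × ℝ), μHE[2] s = c * volume s) {s : Set (ℝ × ℝ)} (hs : s ⊆ Q0) :
    μHE[2] (ψ '' s) ≤ ENNReal.ofReal (C ^ 2 * c) * volume s := by
  refine (lip_HE (h.lipOn.mono hs)).trans (le_of_eq ?_)
  rw [hc, ENNReal.ofReal_mul (by positivity), ENNReal.ofReal_pow h.pos.le, ENNReal.ofReal_coe_nnreal,
    mul_assoc]
  rfl

lemma ChartSystem.finite (h : ChartSystem S ψ C D) : μHE[2] S ≠ ⊤ := by
  classical
  obtain ⟨c, hc⟩ := HE_prod
  have hsub : S ⊆ ⋃ i ∈ (Finset.univ : Finset I), ψ i '' Q0 := by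
    intro x hx
    obtain ⟨i, z, hz, rfl⟩ := h.surj x hx
    exact mem_iUnion₂.mpr ⟨i, Finset.mem_univ _, z, hz, rfl⟩
  refine ne_top_of_le_ne_top ?_ ((measure_mono hsub).trans (measure_biUnion_finset_le _ _))
  rw [ENNReal.sum_ne_top]
  intro i _
  refine ne_top_of_le_ne_top ?_ ((h.chart i).HE_image_le hc subset_rfl)
  apply ENNReal.mul_ne_top ENNReal.ofReal_ne_top
  exact measure_closedBall_lt_top.ne

/-- The flat pieces. -/
lemma ChartSystem.pieces (h : ChartSystem S ψ C D) {δ : ℝ} (hδ0 : 0 < δ) (hδ : δ ≤ 1 / 2) {η : ℝ}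
    (hη : 0 < η) : ∃ (k : Type) (_ : Fintype k) (Q : k → Set E) (τ : k → E → P2),
      (∀ i, Q i ⊆ S) ∧ (∀ i, IsCompact (Q i)) ∧ Pairwise (Function.onFun Disjoint Q) ∧
      (∀ i, FlatPiece (4 * δ) (Q i) (τ i)) ∧
      μHE[2] S ≤ ∑ i, μHE[2] (Q i) + ENNReal.ofReal η := by
  classical
  obtain ⟨c, hc⟩ := HE_prod
  obtain ⟨N, hN⟩ : ∃ N : ℝ, N = Fintype.card I := ⟨_, rfl⟩
  have hN0 : 0 ≤ N := by rw [hN]; positivity
  obtain ⟨η', hη'⟩ : ∃ η', η' = η / (N * (C ^ 2 * c) + 1) := ⟨_, rfl⟩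
  have hη'0 : 0 < η' := by rw [hη']; positivity
  choose F r hflat hsub hdisj hvol using fun i => select (h.diff i) hδ0 hη'0
  have hdata : ∀ i, ∀ x ∈ F i, ∃ τ : E → P2,
      FlatPiece (4 * δ) (ψ i '' closedBall x (r i x)) τ := by
    intro i x hx
    obtain ⟨a, b, κ, -, -, -, -, -, τ, hτ⟩ := (hflat i x hx).data hδ0.le hδ
    exact ⟨τ, hτ⟩
  choose! τ hτ using hdata
  have hcomp : ∀ i, ∀ x ∈ F i, IsCompact (ψ i '' closedBall x (r i x)) := by
    intro i x hx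
    apply (isCompact_closedBall x (r i x)).image_of_continuousOn
    exact (h.chart i).lipOn.continuousOn.mono ((hsub i x hx).trans ball_subset_closedBall)
  -- index type in `Type`
  let e : I ≃ Fin (Fintype.card I) := Fintype.equivFin I
  refine ⟨Σ j : Fin (Fintype.card I), {x : ℝ × ℝ // x ∈ F (e.symm j)}, inferInstance,
    fun k => ψ (e.symm k.1) '' closedBall (k.2 : ℝ × ℝ) (r (e.symm k.1) k.2),
    fun k => τ (e.symm k.1) k.2, ?_, ?_, ?_, ?_, ?_⟩
  · rintro ⟨j, x, hx⟩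
    rintro _ ⟨z, hz, rfl⟩
    exact (h.chart _).maps z (ball_subset_closedBall (hsub _ x hx hz))
  · rintro ⟨j, x, hx⟩
    exact hcomp _ x hx
  · rintro ⟨j, x, hx⟩ ⟨j', x', hx'⟩ hne
    rw [Function.onFun, disjoint_left]
    rintro _ ⟨p, hp, rfl⟩ ⟨q, hq, hpq⟩
    obtain ⟨h1, h2⟩ := h.inj _ _ q (hsub _ x' hx' hq) p (hsub _ x hx hp) hpq
    have hj : j' = j := e.symm.injective h1
    subst hj
    subst h2
    apply hne
    by_contra hne'
    have hxx : x ≠ x' := by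
      rintro rfl
      exact hne rfl
    exact (hdisj _ hx hx' hxx).le_bot ⟨hp, hq⟩
  · rintro ⟨j, x, hx⟩
    exact hτ _ x hx
  · have hS : S ⊆ (⋃ i : I, ⋃ x ∈ F i, ψ i '' closedBall x (r i x)) ∪
        ⋃ i : I, ψ i '' (Q0 \ ⋃ x ∈ F i, closedBall x (r i x)) := by
      intro y hy
      obtain ⟨i, z, hz, rfl⟩ := h.surj y hy
      by_cases hz' : z ∈ ⋃ x ∈ F i, closedBall x (r i x)
      · left
        rw [mem_iUnion₂] at hz'
        obtain ⟨x, hx, hzx⟩ := hz'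
        exact mem_iUnion.mpr ⟨i, mem_iUnion₂.mpr ⟨x, hx, z, hzx, rfl⟩⟩
      · right
        exact mem_iUnion.mpr ⟨i, z, ⟨hz, hz'⟩, rfl⟩
    refine (measure_mono hS).trans ((measure_union_le _ _).trans ?_)
    apply add_le_add
    · refine (measure_iUnion_fintype_le _ _).trans ?_
      rw [Fintype.sum_sigma, ← Equiv.sum_comp e.symm]
      apply Finset.sum_le_sum
      intro j _
      refine (measure_biUnion_finset_le _ _).trans (le_of_eq ?_)
      rw [← Finset.sum_attach (F (e.symm j))]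
      rfl
    · refine (measure_iUnion_fintype_le _ _).trans ?_
      have h1 : ∀ i, μHE[2] (ψ i '' (Q0 \ ⋃ x ∈ F i, closedBall x (r i x))) ≤
          ENNReal.ofReal (C ^ 2 * c * η') := by
        intro i
        refine ((h.chart i).HE_image_le hc sdiff_subset).trans ?_
        have hC := (h.chart i).pos
        rw [ENNReal.ofReal_mul (p := C ^ 2 * c) (q := η') (by positivity)]
        exact mul_le_mul_right (hvol i).le _
      refine (Finset.sum_le_sum fun i _ => h1 i).trans ?_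
      rw [Finset.sum_const, Finset.card_univ, nsmul_eq_mul, ← ENNReal.ofReal_natCast,
        ← ENNReal.ofReal_mul (by positivity), ← hN]
      apply ENNReal.ofReal_le_ofReal
      rw [hη']
      have : N * (C ^ 2 * c * (η / (N * (C ^ 2 * c) + 1))) =
          η * ((N * (C ^ 2 * c)) / (N * (C ^ 2 * c) + 1)) := by
        field_simp
      rw [this]
      have h2 : (N * (C ^ 2 * c)) / (N * (C ^ 2 * c) + 1) ≤ 1 := by
        rw [div_le_one (by positivity)]; linarith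
      nlinarith

/-- Separation of finitely many disjoint compact sets. -/
lemma exists_sep {k : Type*} [Finite k] {X : Type*} [MetricSpace X] (Q : k → Set X)
    (hcomp : ∀ i, IsCompact (Q i)) (hdisj : Pairwise (Function.onFun Disjoint Q)) :
    ∃ D > 0, ∀ i j, i ≠ j → ∀ x ∈ Q i, ∀ y ∈ Q j, D ≤ dist x y := by
  have h : ∀ᶠ D in 𝓝[>] (0:ℝ), ∀ i j, i ≠ j → ∀ x ∈ Q i, ∀ y ∈ Q j, D ≤ dist x y := by
    rw [eventually_all]
    intro i
    rw [eventually_all]
    intro j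
    by_cases hij : i = j
    · filter_upwards with D h
      exact absurd hij h
    · obtain ⟨r, hr, hr2⟩ := Metric.exists_pos_forall_lt_edist (hcomp i) (hcomp j).isClosed
        (hdisj hij)
      have hr' : (0:ℝ) < r := hr
      filter_upwards [Ioo_mem_nhdsGT hr'] with D hD _ x hx y hy
      have h1 := hr2 x hx y hy
      rw [edist_nndist, ENNReal.coe_lt_coe] at h1
      have h2 : (r : ℝ) < dist x y := h1
      linarith [hD.2]
  obtain ⟨D, hD, hD0⟩ := (h.and self_mem_nhdsWithin).exists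
  exact ⟨D, hD0, hD⟩

end Pool.Agent.H985.Dense
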