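import Pool.Agent.H985.Dense.Tube

set_option autoImplicit false
open MeasureTheory Set Metric
open scoped ENNReal NNReal

namespace Pool.Agent.H985.Dense

section HE
variable {X Y : Type*} [MetricSpace X] [MeasurableSpace X] [BorelSpace X]
  [MetricSpace Y] [MeasurableSpace Y] [BorelSpace Y]

lemma lip_HE {K : ℝ≥0} {f : X → Y} {s : Set X} (hf : LipschitzOnWith K f s) :
    μHE[2] (f '' s) ≤ (K : ℝ≥0∞) ^ 2 * μHE[2] s := by
  simp only [Measure.euclideanHausdorffMeasure_def, Measure.smul_apply]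
  have h := hf.hausdorffMeasure_image_le (d := 2) (by norm_num)
  have h' : (K : ℝ≥0∞) ^ (2 : ℝ) = (K : ℝ≥0∞) ^ 2 := by
    rw [← ENNReal.rpow_natCast]; norm_num
  rw [h'] at h
  simp only [ENNReal.smul_def, smul_eq_mul, Nat.cast_ofNat]
  calc _ ≤ _ * ((K : ℝ≥0∞) ^ 2 * μH[2] s) := by gcongr
    _ = _ := by ring

lemma antilip_HE {L : ℝ} (hL : 0 ≤ L) {f : X → Y} {s : Set X}
    (hf : ∀ x ∈ s, ∀ y ∈ s, dist x y ≤ L * dist (f x) (f y)) :
    μHE[2] s ≤ ENNReal.ofReal (L ^ 2) * μHE[2] (f '' s) := by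
  classical
  rcases s.eq_empty_or_nonempty with rfl | ⟨x0, hx0⟩
  · simp
  have : Nonempty X := ⟨x0⟩
  have hinj : InjOn f s := by
    intro x hx y hy hxy
    have := hf x hx y hy
    rw [hxy, dist_self, mul_zero] at this
    exact dist_le_zero.mp this
  have hl : LipschitzOnWith (Real.toNNReal L) (Function.invFunOn f s) (f '' s) := by
    apply LipschitzOnWith.of_dist_le_mul
    rintro _ ⟨x, hx, rfl⟩ _ ⟨y, hy, rfl⟩
    rw [hinj.leftInvOn_invFunOn hx, hinj.leftInvOn_invFunOn hy, Real.coe_toNNReal _ hL]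
    exact hf x hx y hy
  have h := lip_HE hl
  rw [hinj.leftInvOn_invFunOn.image_image] at h
  rw [ENNReal.ofReal_pow hL]
  exact h

end HE

/-- A piece of the flat family: `τ` is a chart to the plane. -/
structure FlatPiece {E : Type*} [MetricSpace E] (δ : ℝ) (Q : Set E) (τ : E → P2) : Prop where
  lip : ∀ x y, dist (τ x) (τ y) ≤ dist x y
  anti : ∀ x ∈ Q, ∀ y ∈ Q, dist x y ≤ (1 + δ) * dist (τ x) (τ y)

/-- Discretisation of a continuous curve. -/
lemma discretise {E : Type*} [MetricSpace E] {γ : ℝ → E} (hγ : ContinuousOn γ (Icc 0 1)) {h : ℝ}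
    (hh : 0 < h) : ∃ m : ℕ, 0 < m ∧ ∀ t ∈ Icc (0:ℝ) 1, ∃ i : ℕ, i ≤ m ∧
      dist (γ t) (γ ((i : ℝ) / m)) ≤ h := by
  have huc : UniformContinuousOn γ (Icc 0 1) :=
    isCompact_Icc.uniformContinuousOn_of_continuous hγ
  rw [Metric.uniformContinuousOn_iff] at huc
  obtain ⟨d, hd, huc⟩ := huc h hh
  obtain ⟨m, hm⟩ := exists_nat_gt (1 / d)
  have hm0' : (0:ℝ) < m := lt_trans (by positivity) hm
  have hm0 : 0 < m := by exact_mod_cast hm0'
  refine ⟨m, hm0, fun t ht => ?_⟩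
  have h1 : 1 / (m:ℝ) < d := by
    rw [div_lt_iff₀ hm0']; rw [div_lt_iff₀ hd] at hm; linarith
  refine ⟨⌊t * m⌋₊, ?_, ?_⟩
  · have : (⌊t * m⌋₊ : ℝ) ≤ m := by
      refine (Nat.floor_le (mul_nonneg ht.1 hm0'.le)).trans ?_
      nlinarith [ht.2]
    exact_mod_cast this
  · have h2 : (⌊t * m⌋₊ : ℝ) ≤ t * m := Nat.floor_le (mul_nonneg ht.1 hm0'.le)
    have h3 : t * m < (⌊t * m⌋₊ : ℝ) + 1 := Nat.lt_floor_add_one _
    apply (huc t ht _ _ _).le
    · constructor
      · positivity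
      · rw [div_le_one hm0']
        refine h2.trans ?_
        nlinarith [ht.2]
    · rw [Real.dist_eq, abs_lt]
      have e : t - (⌊t * m⌋₊ : ℝ) / m = (t * m - ⌊t * m⌋₊) / m := by field_simp
      rw [e]
      constructor
      · have : 0 ≤ (t * m - ⌊t * m⌋₊) / m := div_nonneg (by linarith) hm0'.le
        linarith
      · refine lt_of_le_of_lt ?_ h1
        apply div_le_div_of_nonneg_right _ hm0'.le
        linarith

/-- The main lower bound for a given `ε`. -/
lemma lower_core {E : Type*} [MetricSpace E] [MeasurableSpace E] [BorelSpace E]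
    {κ : Type*} [Fintype κ] (Q : κ → Set E) (τ : κ → E → P2) {δ : ℝ} (hδ : 0 ≤ δ)
    (hflat : ∀ k, FlatPiece δ (Q k) (τ k)) {D M θ ε : ℝ} (hM : 0 < M) (hθ : 0 < θ) (hε : 0 < ε)
    (hsep : ∀ k l, k ≠ l → ∀ x ∈ Q k, ∀ y ∈ Q l, D ≤ dist x y)
    (hD : 2 * (ε * (1 + θ)) + M * ε < D)
    {γ : ℝ → E} (hγ : ContinuousOn γ (Icc 0 1)) {Λ : ℝ} (hΛ0 : 0 ≤ Λ)
    (hΛ : eVariationOn γ (Icc 0 1) ≤ ENNReal.ofReal Λ)
    (hdense : ∀ k, ∀ x ∈ Q k, ∃ t ∈ Icc (0:ℝ) 1, dist x (γ t) ≤ ε) :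
    ∑ k, μHE[2] (Q k) ≤ ENNReal.ofReal ((1 + δ) ^ 2 * ((ε * Λ + M * ε ^ 2) *
      (2 * (1 + θ) + Real.pi * (1 + θ) ^ 2 / M))) := by
  classical
  obtain ⟨m, hm0, hm⟩ := discretise hγ (h := θ * ε) (by positivity)
  have hm0' : (0:ℝ) < m := by exact_mod_cast hm0
  obtain ⟨r, hr⟩ : ∃ r, r = ε * (1 + θ) := ⟨_, rfl⟩
  have hr0 : 0 < r := by rw [hr]; positivity
  obtain ⟨c, hc⟩ : ∃ c : ℕ → E, c = fun i : ℕ => γ ((i : ℝ) / m) := ⟨_, rfl⟩
  obtain ⟨s, hs⟩ : ∃ s : ℕ → ℝ, s = fun i => ∑ j ∈ Finset.range i, dist (c j) (c (j + 1)) := ⟨_, rfl⟩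
  have hsmono : Monotone s := by
    apply monotone_nat_of_le_succ
    intro n
    rw [hs]
    simp only [Finset.sum_range_succ]
    linarith [dist_nonneg (x := c n) (y := c (n + 1))]
  have hs0 : ∀ i, 0 ≤ s i := fun i => by rw [hs]; exact Finset.sum_nonneg fun _ _ => dist_nonneg
  have hsm : s m ≤ Λ := by
    have h1 : ENNReal.ofReal (s m) ≤ ENNReal.ofReal Λ := by
      refine le_trans ?_ hΛ
      let u : ℕ → ℝ := fun i => min ((i : ℝ) / m) 1
      have hu : Monotone u := by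
        intro i j hij
        have : (i : ℝ) ≤ j := by exact_mod_cast hij
        exact min_le_min_right _ (div_le_div_of_nonneg_right this hm0'.le)
      have hus : ∀ i, u i ∈ Icc (0:ℝ) 1 := fun i =>
        ⟨le_min (by positivity) zero_le_one, min_le_right _ _⟩
      have h2 := eVariationOn.sum_le (f := γ) (s := Icc (0:ℝ) 1) (n := m) hu hus
      refine le_trans (le_of_eq ?_) h2
      rw [hs, ENNReal.ofReal_sum_of_nonneg (fun _ _ => dist_nonneg)]
      apply Finset.sum_congr rfl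
      intro i hi
      have hi' : i < m := Finset.mem_range.mp hi
      have hi1 : (i : ℝ) + 1 ≤ m := by exact_mod_cast hi'
      have e1 : u i = (i : ℝ) / m := min_eq_left (by rw [div_le_one hm0']; linarith)
      have e2 : u (i + 1) = ((i + 1 : ℕ) : ℝ) / m :=
        min_eq_left (by rw [div_le_one hm0']; push_cast; linarith)
      rw [e1, e2, hc, edist_comm, edist_dist]
    exact (ENNReal.ofReal_le_ofReal_iff hΛ0).mp h1
  have hdist : ∀ i j, i ≤ j → dist (c i) (c j) ≤ s j - s i := by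
    intro i j hij
    have h1 := dist_le_Ico_sum_dist c hij
    have h2 : s j - s i = ∑ l ∈ Finset.Ico i j, dist (c l) (c (l + 1)) := by
      rw [hs, Finset.sum_Ico_eq_sub _ hij]
    rw [h2]; exact h1
  have hMε : 0 < M * ε := by positivity
  obtain ⟨β, hβ⟩ : ∃ β : ℕ → ℕ, β = fun i => ⌊s i / (M * ε)⌋₊ := ⟨_, rfl⟩
  have hβdist : ∀ i j, β i = β j → |s i - s j| ≤ M * ε := by
    intro i j hij
    rw [hβ] at hij
    simp only at hij
    have h1 := Nat.floor_le (div_nonneg (hs0 i) hMε.le)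
    have h2 := Nat.lt_floor_add_one (s i / (M * ε))
    have h3 := Nat.floor_le (div_nonneg (hs0 j) hMε.le)
    have h4 := Nat.lt_floor_add_one (s j / (M * ε))
    rw [hij] at h1 h2
    rw [le_div_iff₀ hMε] at h1 h3
    rw [div_lt_iff₀ hMε] at h2 h4
    rw [abs_le]
    constructor <;> nlinarith
  have hβc : ∀ i j, β i = β j → dist (c i) (c j) ≤ M * ε := by
    intro i j hij
    rcases le_total i j with h | h
    · refine (hdist i j h).trans ?_
      have := hβdist i j hij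
      rw [abs_le] at this; linarith
    · rw [dist_comm]
      refine (hdist j i h).trans ?_
      have := hβdist i j hij
      rw [abs_le] at this; linarith
  obtain ⟨B, hB⟩ : ∃ B : ℕ, B = ⌊Λ / (M * ε)⌋₊ := ⟨_, rfl⟩
  have hβB : ∀ i ≤ m, β i ≤ B := by
    intro i hi
    rw [hβ, hB]
    apply Nat.floor_le_floor
    apply div_le_div_of_nonneg_right _ hMε.le
    exact (hsmono hi).trans hsm
  -- blocks meeting a piece
  let T : κ → Finset ℕ := fun k => (Finset.range (B + 1)).filter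
    (fun b => ∃ i ≤ m, β i = b ∧ ∃ x ∈ Q k, dist x (c i) ≤ r)
  have hTdisj : Pairwise (Function.onFun Disjoint T) := by
    intro k l hkl
    rw [Function.onFun, Finset.disjoint_left]
    intro b hb1 hb2
    rw [Finset.mem_filter] at hb1 hb2
    obtain ⟨-, i, hi, hib, x, hx, hxi⟩ := hb1
    obtain ⟨-, j, hj, hjb, y, hy, hyj⟩ := hb2
    have h1 := hsep k l hkl x hx y hy
    have h2 : dist x y ≤ dist x (c i) + dist (c i) (c j) + dist (c j) y :=
      dist_triangle4 _ _ _ _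
    have h3 := hβc i j (hib.trans hjb.symm)
    rw [dist_comm (c j) y] at h2
    rw [← hr] at hD
    linarith
  have hTcard : ∑ k, (T k).card ≤ B + 1 := by
    rw [← Finset.card_biUnion (fun k _ l _ hkl => hTdisj hkl)]
    calc _ ≤ (Finset.range (B + 1)).card := by
          apply Finset.card_le_card
          intro b hb
          rw [Finset.mem_biUnion] at hb
          obtain ⟨k, -, hb⟩ := hb
          exact (Finset.mem_filter.mp hb).1
      _ = B + 1 := Finset.card_range _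
  have hpiece : ∀ k, μHE[2] (Q k) ≤
      ENNReal.ofReal ((1 + δ) ^ 2) * ((T k).card * ENNReal.ofReal (Real.pi * r ^ 2 + 2 * r * (M * ε))) := by
    intro k
    refine (antilip_HE (by positivity) (hflat k).anti).trans ?_
    rw [EuclideanSpace.euclideanHausdorffMeasure_eq_volume]
    gcongr
    have hsub : τ k '' Q k ⊆ ⋃ b ∈ T k, ⋃ i ∈ {i | i ≤ m ∧ β i = b}, closedBall (τ k (c i)) r := by
      rintro _ ⟨x, hx, rfl⟩
      obtain ⟨t, ht, hxt⟩ := hdense k x hx
      obtain ⟨i, hi, hti⟩ := hm t ht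
      have hxi : dist x (c i) ≤ r := by
        rw [hc, hr]
        refine (dist_triangle _ (γ t) _).trans ?_
        linarith
      rw [mem_iUnion₂]
      refine ⟨β i, Finset.mem_filter.mpr ⟨Finset.mem_range.mpr (Nat.lt_succ_of_le (hβB i hi)),
        i, hi, rfl, x, hx, hxi⟩, ?_⟩
      rw [mem_iUnion₂]
      exact ⟨i, ⟨hi, rfl⟩, ((hflat k).lip x (c i)).trans hxi⟩
    refine (measure_mono hsub).trans ((measure_biUnion_finset_le _ _).trans ?_)
    rw [← nsmul_eq_mul]
    apply Finset.sum_le_card_nsmul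
    intro b _
    by_cases hne : ∃ i, i ≤ m ∧ β i = b
    · -- block is an interval
      let I : Finset ℕ := (Finset.range (m + 1)).filter (fun i => β i = b)
      have hI : I.Nonempty := by
        obtain ⟨i, hi, hib⟩ := hne
        exact ⟨i, Finset.mem_filter.mpr ⟨Finset.mem_range.mpr (Nat.lt_succ_of_le hi), hib⟩⟩
      obtain ⟨i0, hi0⟩ : ∃ i0, i0 = I.min' hI := ⟨_, rfl⟩
      obtain ⟨i1, hi1⟩ : ∃ i1, i1 = I.max' hI := ⟨_, rfl⟩
      have hm0 : β i0 = b := by
        rw [hi0]; exact (Finset.mem_filter.mp (I.min'_mem hI)).2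
      have hm1 : β i1 = b := by
        rw [hi1]; exact (Finset.mem_filter.mp (I.max'_mem hI)).2
      have h01 : i0 ≤ i1 := by rw [hi0, hi1]; exact Finset.min'_le_max' I hI
      obtain ⟨n, hn⟩ : ∃ n, i1 = i0 + n := ⟨i1 - i0, by omega⟩
      have hsub2 : (⋃ i ∈ {i | i ≤ m ∧ β i = b}, closedBall (τ k (c i)) r) ⊆
          ⋃ i ∈ Icc i0 (i0 + n), closedBall (τ k (c i)) r := by
        apply biUnion_mono _ (fun _ _ => subset_rfl)
        rintro i ⟨hi, hib⟩
        have hiI : i ∈ I :=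
          Finset.mem_filter.mpr ⟨Finset.mem_range.mpr (Nat.lt_succ_of_le hi), hib⟩
        rw [← hn, hi0, hi1]
        exact ⟨Finset.min'_le _ _ hiI, Finset.le_max' _ _ hiI⟩
      refine (measure_mono hsub2).trans ((chain_vol (fun i => τ k (c i)) hr0.le i0 n).trans ?_)
      apply ENNReal.ofReal_le_ofReal
      have h2 : ∑ j ∈ Finset.Ico i0 (i0 + n), dist (τ k (c j)) (τ k (c (j + 1))) ≤ M * ε := by
        calc _ ≤ ∑ j ∈ Finset.Ico i0 (i0 + n), dist (c j) (c (j + 1)) :=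
              Finset.sum_le_sum fun j _ => (hflat k).lip _ _
          _ = s (i0 + n) - s i0 := by rw [hs, Finset.sum_Ico_eq_sub _ (by omega)]
          _ ≤ M * ε := by
              have := hβdist i0 (i0 + n) (by rw [← hn, hm0, hm1])
              rw [abs_le] at this; linarith
      nlinarith
    · have : (⋃ i ∈ {i | i ≤ m ∧ β i = b}, closedBall (τ k (c i)) r) = ∅ := by
        simp only [iUnion_eq_empty]
        intro i hi
        exact absurd ⟨i, hi⟩ hne
      rw [this]; simp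
  calc ∑ k, μHE[2] (Q k) ≤ ∑ k, ENNReal.ofReal ((1 + δ) ^ 2) *
        ((T k).card * ENNReal.ofReal (Real.pi * r ^ 2 + 2 * r * (M * ε))) :=
        Finset.sum_le_sum fun k _ => hpiece k
    _ = ENNReal.ofReal ((1 + δ) ^ 2) * (((∑ k, (T k).card : ℕ) : ℝ≥0∞) *
        ENNReal.ofReal (Real.pi * r ^ 2 + 2 * r * (M * ε))) := by
        rw [← Finset.mul_sum, ← Finset.sum_mul]
        push_cast
        rfl
    _ ≤ ENNReal.ofReal ((1 + δ) ^ 2) * (((B + 1 : ℕ) : ℝ≥0∞) *
        ENNReal.ofReal (Real.pi * r ^ 2 + 2 * r * (M * ε))) := by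
        gcongr
    _ ≤ _ := by
        rw [← ENNReal.ofReal_natCast, ← ENNReal.ofReal_mul (by positivity),
          ← ENNReal.ofReal_mul (by positivity)]
        apply ENNReal.ofReal_le_ofReal
        apply mul_le_mul_of_nonneg_left _ (by positivity)
        have h1 : (B : ℝ) ≤ Λ / (M * ε) := by
          rw [hB]; exact Nat.floor_le (by positivity)
        have h2 : ((B + 1 : ℕ) : ℝ) ≤ Λ / (M * ε) + 1 := by push_cast; linarith
        have h3 : 0 ≤ Real.pi * r ^ 2 + 2 * r * (M * ε) := by positivity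
        calc ((B + 1 : ℕ) : ℝ) * (Real.pi * r ^ 2 + 2 * r * (M * ε))
            ≤ (Λ / (M * ε) + 1) * (Real.pi * r ^ 2 + 2 * r * (M * ε)) := by gcongr
          _ = _ := by rw [hr]; field_simp; ring

end Pool.Agent.H985.Dense
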