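import Pool.Agent.H985.Dense.Limit

set_option autoImplicit false
open MeasureTheory Set Metric Filter
open scoped ENNReal NNReal RealInnerProductSpace Topology

namespace Pool.Agent.H985.Dense

variable {E : Type*} [NormedAddCommGroup E] [InnerProductSpace ℝ E] [MeasurableSpace E]
  [BorelSpace E]
variable {I : Type*} [Fintype I] {S : Set E} {ψ : I → ℝ × ℝ → E} {C D : ℝ}

/-- parameter choice for the lower bound -/
lemma param_lower {a b : ℝ} (hb : b < a / 2) : ∃ t : ℝ, 0 < t ∧ t ≤ 1 / 2 ∧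
    b < (a - t) / ((1 + 4 * t) ^ 2 * (2 * (1 + t) + Real.pi * (1 + t) ^ 2 * t)) := by
  have hcont : ContinuousAt (fun t : ℝ =>
      (a - t) / ((1 + 4 * t) ^ 2 * (2 * (1 + t) + Real.pi * (1 + t) ^ 2 * t))) 0 := by
    apply ContinuousAt.div (by fun_prop) (by fun_prop)
    norm_num
  have h0 : (a - 0) / ((1 + 4 * (0:ℝ)) ^ 2 * (2 * (1 + 0) + Real.pi * (1 + 0) ^ 2 * 0)) = a / 2 := by
    norm_num
  have h1 : ∀ᶠ t in 𝓝[>] (0:ℝ),
      b < (a - t) / ((1 + 4 * t) ^ 2 * (2 * (1 + t) + Real.pi * (1 + t) ^ 2 * t)) := by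
    have h2 := hcont.tendsto
    rw [h0] at h2
    exact (h2.mono_left nhdsWithin_le_nhds).eventually (lt_mem_nhds hb)
  obtain ⟨t, ht1, ht2⟩ := (h1.and (Ioo_mem_nhdsGT (show (0:ℝ) < 1 / 2 by norm_num))).exists
  exact ⟨t, ht2.1, ht2.2.le, ht1⟩

/-- parameter choice for the upper bound -/
lemma param_upper {a b N : ℝ} (hb : a / 2 < b) : ∃ t : ℝ, 0 < t ∧ t ≤ 1 / 2 ∧
    (1 + 2 * t) ^ 2 * a * (1 + t) ^ 2 / 2 + N * t < b := by
  have hcont : ContinuousAt (fun t : ℝ => (1 + 2 * t) ^ 2 * a * (1 + t) ^ 2 / 2 + N * t) 0 := by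
    fun_prop
  have h0 : (1 + 2 * (0:ℝ)) ^ 2 * a * (1 + 0) ^ 2 / 2 + N * 0 = a / 2 := by
    norm_num
  have h1 : ∀ᶠ t in 𝓝[>] (0:ℝ), (1 + 2 * t) ^ 2 * a * (1 + t) ^ 2 / 2 + N * t < b := by
    have h2 := hcont.tendsto
    rw [h0] at h2
    exact (h2.mono_left nhdsWithin_le_nhds).eventually (gt_mem_nhds hb)
  obtain ⟨t, ht1, ht2⟩ := (h1.and (Ioo_mem_nhdsGT (show (0:ℝ) < 1 / 2 by norm_num))).exists
  exact ⟨t, ht2.1, ht2.2.le, ht1⟩

theorem ChartSystem.lower (h : ChartSystem S ψ C D) {b : ℝ} (hb0 : 0 ≤ b)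
    (hb : b < (μHE[2] S).toReal / 2) :
    ∀ᶠ ε in 𝓝[>] (0:ℝ), ENNReal.ofReal b < ENNReal.ofReal ε * minLength S ε := by
  obtain ⟨a, ha⟩ : ∃ a, a = (μHE[2] S).toReal := ⟨_, rfl⟩
  rw [← ha] at hb
  obtain ⟨t, ht0, ht1, htb⟩ := param_lower hb
  obtain ⟨κ, hκ⟩ : ∃ κ, κ = (1 + 4 * t) ^ 2 * (2 * (1 + t) + Real.pi * (1 + t) ^ 2 * t) := ⟨_, rfl⟩
  rw [← hκ] at htb
  have hκ0 : 0 < κ := by rw [hκ]; positivity
  obtain ⟨k, hk, Q, τ, hQS, hQc, hQd, hflat, hμ⟩ := h.pieces ht0 ht1 ht0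
  obtain ⟨D0, hD0, hsep⟩ := exists_sep Q hQc hQd
  obtain ⟨F, hF⟩ : ∃ F, F = (a - t) / κ := ⟨_, rfl⟩
  rw [← hF] at htb
  have e1 : ∀ᶠ ε in 𝓝[>] (0:ℝ), 2 * (ε * (1 + t)) + 1 / t * ε < D0 := by
    have : Tendsto (fun ε : ℝ => 2 * (ε * (1 + t)) + 1 / t * ε) (𝓝 0)
        (𝓝 (2 * (0 * (1 + t)) + 1 / t * 0)) := by
      apply Continuous.tendsto; fun_prop
    rw [zero_mul, mul_zero, mul_zero, add_zero] at this
    exact (this.mono_left nhdsWithin_le_nhds).eventually (gt_mem_nhds hD0)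
  have e2 : ∀ᶠ ε in 𝓝[>] (0:ℝ), 1 / t * ε ^ 2 < (F - b) / 2 := by
    have : Tendsto (fun ε : ℝ => 1 / t * ε ^ 2) (𝓝 0) (𝓝 (1 / t * 0 ^ 2)) := by
      apply Continuous.tendsto; fun_prop
    rw [zero_pow two_ne_zero, mul_zero] at this
    exact (this.mono_left nhdsWithin_le_nhds).eventually (gt_mem_nhds (by linarith))
  filter_upwards [e1, e2, self_mem_nhdsWithin] with ε h1 h2 hε
  have hε0 : (0:ℝ) < ε := hε
  obtain ⟨b1, hb1⟩ : ∃ b1, b1 = (F + b) / 2 := ⟨_, rfl⟩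
  have hbb1 : b < b1 := by rw [hb1]; linarith
  have hkey : ENNReal.ofReal (b1 / ε) ≤ minLength S ε := by
    unfold minLength
    refine le_iInf₂ fun γ hγ => ?_
    obtain ⟨⟨hγc, hγS⟩, hγf, hγd⟩ := hγ
    obtain ⟨Λ, hΛ⟩ : ∃ Λ, Λ = (pathLength γ).toReal := ⟨_, rfl⟩
    have hΛ0 : 0 ≤ Λ := by rw [hΛ]; exact ENNReal.toReal_nonneg
    have hΛe : pathLength γ = ENNReal.ofReal Λ := by rw [hΛ, ENNReal.ofReal_toReal hγf]
    rw [hΛe]
    apply ENNReal.ofReal_le_ofReal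
    rw [div_le_iff₀ hε0]
    have hcore := lower_core Q τ (δ := 4 * t) (by positivity) hflat (D := D0) (M := 1 / t) (θ := t)
      (ε := ε) (by positivity) ht0 hε0 hsep (by
        have : 1 / t * ε = 1 / t * ε := rfl
        exact h1) hγc hΛ0 (le_of_eq hΛe) (by
        intro i x hx
        obtain ⟨s, hs, hd⟩ := hγd x (hQS i hx)
        refine ⟨s, hs, ?_⟩
        have h3 := (edist_le_intrinsicDist S x (γ s)).trans hd
        rw [edist_dist] at h3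
        exact (ENNReal.ofReal_le_ofReal_iff hε0.le).mp h3)
    have h3 := hμ.trans (add_le_add hcore le_rfl)
    rw [← ENNReal.ofReal_add (by positivity) ht0.le] at h3
    have h4 : a ≤ (1 + 4 * t) ^ 2 * ((ε * Λ + 1 / t * ε ^ 2) *
        (2 * (1 + t) + Real.pi * (1 + t) ^ 2 / (1 / t))) + t := by
      rw [ha]
      exact ENNReal.toReal_le_of_le_ofReal (by positivity) h3
    have e3 : (1 + 4 * t) ^ 2 * ((ε * Λ + 1 / t * ε ^ 2) *
        (2 * (1 + t) + Real.pi * (1 + t) ^ 2 / (1 / t))) = (ε * Λ + 1 / t * ε ^ 2) * κ := by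
      rw [hκ]; field_simp
    rw [e3] at h4
    have h5 : F ≤ ε * Λ + 1 / t * ε ^ 2 := by
      rw [hF, div_le_iff₀ hκ0]; linarith
    rw [hb1]; linarith
  calc ENNReal.ofReal b < ENNReal.ofReal b1 := by
        rw [ENNReal.ofReal_lt_ofReal_iff (by linarith)]; exact hbb1
    _ = ENNReal.ofReal ε * ENNReal.ofReal (b1 / ε) := by
        rw [← ENNReal.ofReal_mul hε0.le]; congr 1; field_simp
    _ ≤ _ := by gcongr

theorem ChartSystem.upper (h : ChartSystem S ψ C D) (hS : S.Nonempty) {b : ℝ}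
    (hb : (μHE[2] S).toReal / 2 < b) :
    ∀ᶠ ε in 𝓝[>] (0:ℝ), ENNReal.ofReal ε * minLength S ε < ENNReal.ofReal b := by
  classical
  obtain ⟨a, ha⟩ : ∃ a, a = (μHE[2] S).toReal := ⟨_, rfl⟩
  have ha0 : 0 ≤ a := by rw [ha]; exact ENNReal.toReal_nonneg
  rw [← ha] at hb
  obtain ⟨N, hN⟩ : ∃ N : ℝ, N = Fintype.card I := ⟨_, rfl⟩
  obtain ⟨t, ht0, ht1, htb⟩ := param_upper (N := N) hb
  have hch : ∀ i, ∃ (U : Set E) (α K : ℝ), U ⊆ ψ i '' ball 0 1 ∧ IsCompact U ∧ 0 ≤ α ∧ 0 ≤ K ∧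
      ENNReal.ofReal α ≤ ENNReal.ofReal ((1 + 2 * t) ^ 2) * μHE[2] U ∧
      ∀ᶠ ε in 𝓝[>] (0:ℝ), ∃ (V : Set E) (p q : E),
        Cov S V p q (α * (1 + t) ^ 2 / (2 * ε) + t / ε + K) ∧
        ∀ z ∈ Q0, ∃ v ∈ V, Cov S ∅ (ψ i z) v ε := by
    intro i
    exact chart_upper (h.chart i) (h.diff i) (fun x hx y hy hxy => (h.inj i i x hx y hy hxy).2)
      h.nonneg h.conn ht0 ht1 ht0
  choose U α K hU hUc hα hK hμ hev using hch
  have hev' : ∀ᶠ ε in 𝓝[>] (0:ℝ), ∀ i, ∃ (V : Set E) (p q : E),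
        Cov S V p q (α i * (1 + t) ^ 2 / (2 * ε) + t / ε + K i) ∧
        ∀ z ∈ Q0, ∃ v ∈ V, Cov S ∅ (ψ i z) v ε := eventually_all.mpr hev
  have hUS : ∀ i, U i ⊆ S := by
    intro i x hx
    obtain ⟨z, hz, rfl⟩ := hU i hx
    exact (h.chart i).maps z (ball_subset_closedBall hz)
  have hUd : Pairwise (Function.onFun Disjoint U) := by
    intro i j hij
    rw [Function.onFun, disjoint_left]
    intro x hx hy
    obtain ⟨p, hp, hpx⟩ := hU i hx
    obtain ⟨q, hq, hqx⟩ := hU j hy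
    exact hij (h.inj i j p hp q hq (hpx.trans hqx.symm)).1
  have hαsum : ∑ i, α i ≤ (1 + 2 * t) ^ 2 * a := by
    have h1 : ENNReal.ofReal (∑ i, α i) ≤ ENNReal.ofReal ((1 + 2 * t) ^ 2 * a) := by
      rw [ENNReal.ofReal_sum_of_nonneg fun _ _ => hα _, ENNReal.ofReal_mul (by positivity), ha,
        ENNReal.ofReal_toReal h.finite]
      calc _ ≤ ∑ i, ENNReal.ofReal ((1 + 2 * t) ^ 2) * μHE[2] (U i) :=
            Finset.sum_le_sum fun i _ => hμ i
        _ = ENNReal.ofReal ((1 + 2 * t) ^ 2) * ∑ i, μHE[2] (U i) := by rw [Finset.mul_sum]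
        _ ≤ _ := by
            gcongr
            rw [← measure_biUnion_finset (fun i _ j _ hij => hUd hij)
              (fun i _ => (hUc i).measurableSet)]
            exact measure_mono (iUnion₂_subset fun i _ => hUS i)
    exact (ENNReal.ofReal_le_ofReal_iff (by positivity)).mp h1
  obtain ⟨K', hK'⟩ : ∃ K', K' = ∑ i, (K i + D) := ⟨_, rfl⟩
  have e1 : ∀ᶠ ε in 𝓝[>] (0:ℝ), (1 + 2 * t) ^ 2 * a * (1 + t) ^ 2 / 2 + N * t + ε * K' < b := by
    have : Tendsto (fun ε : ℝ => (1 + 2 * t) ^ 2 * a * (1 + t) ^ 2 / 2 + N * t + ε * K') (𝓝 0)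
        (𝓝 ((1 + 2 * t) ^ 2 * a * (1 + t) ^ 2 / 2 + N * t + 0 * K')) := by
      apply Continuous.tendsto; fun_prop
    rw [zero_mul, add_zero] at this
    exact (this.mono_left nhdsWithin_le_nhds).eventually (gt_mem_nhds htb)
  filter_upwards [hev', e1, self_mem_nhdsWithin] with ε h1 h2 hε
  have hε0 : (0:ℝ) < ε := hε
  choose V p q hcov hden using h1
  obtain ⟨x0, hx0⟩ := hS
  obtain ⟨q1, hq1⟩ := combine h.conn Finset.univ V
    (fun i => α i * (1 + t) ^ 2 / (2 * ε) + t / ε + K i) (fun i _ => ⟨p i, q i, hcov i⟩) x0 hx0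
  have hml := minLength_le hq1 (ε := ε) (by
    intro x hx
    obtain ⟨i, z, hz, rfl⟩ := h.surj x hx
    obtain ⟨v, hv, hc⟩ := hden i z hz
    exact ⟨v, mem_iUnion₂.mpr ⟨i, Finset.mem_univ _, hv⟩, hc⟩)
  calc ENNReal.ofReal ε * minLength S ε ≤ ENNReal.ofReal ε * ENNReal.ofReal
        (∑ i, (α i * (1 + t) ^ 2 / (2 * ε) + t / ε + K i + D)) := by gcongr
    _ = ENNReal.ofReal (ε * ∑ i, (α i * (1 + t) ^ 2 / (2 * ε) + t / ε + K i + D)) := by
        rw [ENNReal.ofReal_mul hε0.le]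
    _ < ENNReal.ofReal b := by
        rw [ENNReal.ofReal_lt_ofReal_iff (by linarith)]
        have e2 : ε * ∑ i, (α i * (1 + t) ^ 2 / (2 * ε) + t / ε + K i + D) =
            (∑ i, α i) * (1 + t) ^ 2 / 2 + N * t + ε * K' := by
          have e3 : ∀ i, α i * (1 + t) ^ 2 / (2 * ε) + t / ε + K i + D =
              α i * ((1 + t) ^ 2 / (2 * ε)) + t / ε + (K i + D) := fun i => by ring
          rw [Finset.sum_congr rfl fun i _ => e3 i, Finset.sum_add_distrib, Finset.sum_add_distrib,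
            ← Finset.sum_mul, Finset.sum_const, Finset.card_univ, nsmul_eq_mul, ← hN, ← hK']
          field_simp
        rw [e2]
        refine lt_of_le_of_lt ?_ h2
        have : (∑ i, α i) * (1 + t) ^ 2 / 2 ≤ (1 + 2 * t) ^ 2 * a * (1 + t) ^ 2 / 2 := by
          gcongr
        linarith

theorem ChartSystem.tendsto (h : ChartSystem S ψ C D) (hS : S.Nonempty) :
    Tendsto (fun ε : ℝ => ENNReal.ofReal ε * minLength S ε) (𝓝[>] 0) (𝓝 (μHE[2] S / 2)) := by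
  have hA : μHE[2] S / 2 = ENNReal.ofReal ((μHE[2] S).toReal / 2) := by
    rw [ENNReal.ofReal_div_of_pos (by norm_num), ENNReal.ofReal_toReal h.finite]
    simp
  rw [hA, tendsto_order]
  constructor
  · intro b hb
    have hbt : b ≠ ⊤ := ne_top_of_lt hb
    have hb' : b.toReal < (μHE[2] S).toReal / 2 := by
      rwa [← ENNReal.ofReal_toReal hbt, ENNReal.ofReal_lt_ofReal_iff_of_nonneg
        ENNReal.toReal_nonneg] at hb
    filter_upwards [h.lower ENNReal.toReal_nonneg hb'] with ε hε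
    rwa [ENNReal.ofReal_toReal hbt] at hε
  · intro b hb
    obtain ⟨c, hc1, hc2⟩ := exists_between hb
    have hct : c ≠ ⊤ := ne_top_of_lt hc2
    have hc' : (μHE[2] S).toReal / 2 < c.toReal := by
      rwa [← ENNReal.ofReal_toReal hct, ENNReal.ofReal_lt_ofReal_iff_of_nonneg
        (by positivity)] at hc1
    filter_upwards [h.upper hS hc'] with ε hε
    rw [ENNReal.ofReal_toReal hct] at hε
    exact hε.trans hc2

end Pool.Agent.H985.Dense
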