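import Pool.Agent.H985.Dense.Strip

set_option autoImplicit false
open MeasureTheory Set Metric
open scoped ENNReal NNReal

namespace Pool.Agent.H985.Dense

variable {E : Type*} [MetricSpace E] {S : Set E} {ψ : ℝ × ℝ → E} {C : ℝ}

lemma mem_sq {x z : ℝ × ℝ} {r : ℝ} : z ∈ closedBall x r ↔ |z.1 - x.1| ≤ r ∧ |z.2 - x.2| ≤ r := by
  rw [mem_closedBall, Prod.dist_eq, Real.dist_eq, Real.dist_eq, sup_le_iff]

/-- The lines of the zigzag. -/
def lines (x : ℝ × ℝ) (r σ : ℝ) (J : ℕ) : Set (ℝ × ℝ) :=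
  {z | z ∈ closedBall x r ∧ ∃ j : ℕ, j ≤ J ∧ z.2 = x.2 - r + j * σ}

lemma Chart.line (h : Chart S ψ C) {x : ℝ × ℝ} {r : ℝ} (hr : 0 < r) (hQ : closedBall x r ⊆ Q0)
    {a : ℝ} (ha : 0 < a)
    (hlip : ∀ p ∈ closedBall x r, ∀ q ∈ closedBall x r, p.2 = q.2 →
      dist (ψ p) (ψ q) ≤ a * |p.1 - q.1|) {y : ℝ} (hy : |y - x.2| ≤ r) :
    Cov S (ψ '' {z | z ∈ closedBall x r ∧ z.2 = y}) (ψ (x.1 - r, y)) (ψ (x.1 + r, y))
      (a * (2 * r)) := by
  have hp : ((x.1 - r, y) : ℝ × ℝ) ∈ closedBall x r := mem_sq.mpr ⟨by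
    simp only [sub_sub_cancel_left, abs_neg]; rw [abs_of_pos hr], hy⟩
  have hq : ((x.1 + r, y) : ℝ × ℝ) ∈ closedBall x r := mem_sq.mpr ⟨by
    simp only [add_sub_cancel_left]; rw [abs_of_pos hr], hy⟩
  have h1 := Cov.segment (S := S) (ψ := ψ) (x := (x.1 - r, y)) (y := (x.1 + r, y))
    (ℓ := a * (2 * r)) (by positivity)
    (fun s h0 h1 => h.maps _ (hQ (seg_mem hp hq h0 h1))) (by
      intro s t hs hst ht
      refine (hlip _ (seg_mem hp hq hs (hst.trans ht)) _ (seg_mem hp hq (hs.trans hst) ht)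
        (by simp)).trans ?_
      have e : |((x.1 - r, y) + s • ((x.1 + r, y) - (x.1 - r, y)) : ℝ × ℝ).1 -
          ((x.1 - r, y) + t • ((x.1 + r, y) - (x.1 - r, y)) : ℝ × ℝ).1| = 2 * r * (t - s) := by
        simp only [Prod.fst_add, Prod.smul_fst, Prod.fst_sub, smul_eq_mul]
        have : x.1 - r + s * (x.1 + r - (x.1 - r)) - (x.1 - r + t * (x.1 + r - (x.1 - r))) =
          - (2 * r * (t - s)) := by ring
        rw [this, abs_neg, abs_of_nonneg]
        exact mul_nonneg (by positivity) (by linarith)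
      rw [e]; apply le_of_eq; ring)
  apply h1.subset
  apply image_mono
  rintro z ⟨hz, hzy⟩
  rw [mem_sq] at hz
  obtain ⟨hz1, -⟩ := hz
  rw [abs_le] at hz1
  refine ⟨(z.1 - (x.1 - r)) / (2 * r), div_nonneg (by linarith) (by positivity), ?_, ?_⟩
  · rw [div_le_one (by positivity)]; linarith
  · ext
    · simp only [Prod.fst_add, Prod.smul_fst, Prod.fst_sub, smul_eq_mul]
      field_simp
      ring
    · simp [hzy]

lemma Chart.zigzag (h : Chart S ψ C) {x : ℝ × ℝ} {r : ℝ} (hr : 0 < r) (hQ : closedBall x r ⊆ Q0)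
    {a : ℝ} (ha : 0 < a)
    (hlip : ∀ p ∈ closedBall x r, ∀ q ∈ closedBall x r, p.2 = q.2 →
      dist (ψ p) (ψ q) ≤ a * |p.1 - q.1|) {σ : ℝ} (hσ : 0 < σ) (J : ℕ) (hJ : J * σ ≤ 2 * r) :
    ∃ e : ℝ × ℝ, (e = (x.1 - r, x.2 - r + J * σ) ∨ e = (x.1 + r, x.2 - r + J * σ)) ∧
      Cov S (ψ '' lines x r σ J) (ψ (x.1 - r, x.2 - r)) (ψ e)
        ((J + 1) * (a * (2 * r)) + J * (C * σ)) := by
  induction J with
  | zero =>
    refine ⟨_, Or.inr rfl, ?_⟩
    have h1 := h.line hr hQ ha hlip (y := x.2 - r) (by simp [abs_of_pos hr])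
    have h2 := h1.mono (b := (((0 : ℕ) : ℝ) + 1) * (a * (2 * r)) + ((0 : ℕ) : ℝ) * (C * σ))
      (by simp)
    simp only [Nat.cast_zero, zero_mul, add_zero] at h2 ⊢
    apply h2.subset
    apply image_mono
    rintro z ⟨hz, j, hj, hzj⟩
    have : j = 0 := by omega
    subst this
    exact ⟨hz, by rw [hzj]; simp⟩
  | succ J ih =>
    push_cast at hJ
    have hJ' : (J : ℝ) * σ ≤ 2 * r := by nlinarith
    obtain ⟨e, he, hcov⟩ := ih hJ'
    have hJσ : (0:ℝ) ≤ J * σ := by positivity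
    have hy : |x.2 - r + J * σ - x.2| ≤ r := by rw [abs_le]; constructor <;> linarith
    have hy' : |x.2 - r + ((J : ℝ) + 1) * σ - x.2| ≤ r := by
      rw [abs_le]; constructor <;> nlinarith
    have hmem : ∀ s : ℝ, |s - x.1| ≤ r → ∀ y : ℝ, |y - x.2| ≤ r → ((s, y) : ℝ × ℝ) ∈ Q0 :=
      fun s hs y hy => hQ (mem_sq.mpr ⟨hs, hy⟩)
    have hl : |x.1 - r - x.1| ≤ r := by simp [abs_of_pos hr]
    have hr' : |x.1 + r - x.1| ≤ r := by simp [abs_of_pos hr]
    have hline := h.line hr hQ ha hlip hy'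
    have hd : ∀ s : ℝ, dist ((s, x.2 - r + J * σ) : ℝ × ℝ) (s, x.2 - r + ((J : ℝ) + 1) * σ) ≤ σ := by
      intro s
      refine (dist_le_add _ _).trans ?_
      simp only [sub_self, abs_zero, zero_add]
      have : x.2 - r + J * σ - (x.2 - r + ((J : ℝ) + 1) * σ) = - σ := by ring
      rw [this, abs_neg, abs_of_pos hσ]
    have hset : ψ '' lines x r σ (J + 1) ⊆ ψ '' lines x r σ J ∪
        ψ '' {z | z ∈ closedBall x r ∧ z.2 = x.2 - r + ((J : ℝ) + 1) * σ} := by
      rw [← image_union]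
      apply image_mono
      rintro z ⟨hz, j, hj, hzj⟩
      rcases Nat.lt_succ_iff_lt_or_eq.mp (Nat.lt_succ_of_le hj) with h1 | h1
      · exact Or.inl ⟨hz, j, by omega, hzj⟩
      · right
        refine ⟨hz, ?_⟩
        rw [hzj, h1]; push_cast; ring
    have hcost : ((J : ℝ) + 1) * (a * (2 * r)) + J * (C * σ) + C * σ + a * (2 * r) =
        (((J + 1 : ℕ) : ℝ) + 1) * (a * (2 * r)) + ((J + 1 : ℕ) : ℝ) * (C * σ) := by
      push_cast; ring
    rcases he with rfl | rfl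
    · refine ⟨_, Or.inr rfl, ?_⟩
      have h1 := h.seg' (hmem _ hl _ hy) (hmem _ hl _ hy') hσ (hd _)
      have h2 := (hcov.concat h1).concat hline
      rw [hcost] at h2
      push_cast at h2 ⊢
      apply h2.subset
      refine hset.trans ?_
      apply union_subset_union_left
      exact subset_union_left
    · refine ⟨_, Or.inl rfl, ?_⟩
      have h1 := h.seg' (hmem _ hr' _ hy) (hmem _ hr' _ hy') hσ (hd _)
      have h2 := (hcov.concat h1).concat hline.symm
      rw [hcost] at h2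
      push_cast at h2 ⊢
      apply h2.subset
      refine hset.trans ?_
      apply union_subset_union_left
      exact subset_union_left

lemma Chart.zigzag_dense (h : Chart S ψ C) {x : ℝ × ℝ} {r : ℝ} (hr : 0 < r)
    (hQ : closedBall x r ⊆ Q0) {b κ : ℝ} (hb : 0 < b)
    (hlip : ∀ p ∈ closedBall x r, ∀ t : ℝ, p + t • ((κ, 1) : ℝ × ℝ) ∈ closedBall x r →
      ∀ s : ℝ, p + s • ((κ, 1) : ℝ × ℝ) ∈ closedBall x r →
      dist (ψ (p + s • ((κ, 1) : ℝ × ℝ))) (ψ (p + t • ((κ, 1) : ℝ × ℝ))) ≤ b * |s - t|)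
    {σ : ℝ} (hσ : 0 < σ) {n : ℕ} (hn : n * σ = 2 * r) {ρ : ℝ} (hρ1 : ρ ≤ 1)
    (hκ : |κ| * σ ≤ (1 - ρ) * r) {z : ℝ × ℝ} (hz : z ∈ closedBall x (ρ * r)) :
    ∃ v ∈ lines x r σ n, Cov S ∅ (ψ z) (ψ v) (b * (σ / 2)) := by
  have hρr : ρ * r ≤ r := by nlinarith
  have hzr : z ∈ closedBall x r := closedBall_subset_closedBall hρr hz
  have hz2 := mem_sq.mp hz
  have hz3 := mem_sq.mp hzr
  rw [abs_le] at hz3
  have hz3' := abs_le.mp hz3.2
  have hq0 : 0 ≤ (z.2 - x.2 + r) / σ := div_nonneg (by linarith) hσ.le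
  obtain ⟨j, hj⟩ : ∃ j : ℕ, j = ⌊(z.2 - x.2 + r) / σ + 1 / 2⌋₊ := ⟨_, rfl⟩
  have h1 : (j : ℝ) ≤ (z.2 - x.2 + r) / σ + 1 / 2 := by rw [hj]; exact Nat.floor_le (by positivity)
  have h2 : (z.2 - x.2 + r) / σ + 1 / 2 < j + 1 := by rw [hj]; exact Nat.lt_floor_add_one _
  have hjn : j ≤ n := by
    have : (z.2 - x.2 + r) / σ ≤ n := by
      rw [div_le_iff₀ hσ, hn]; linarith
    have h3 : (j : ℝ) < n + 1 := by linarith
    have h4 : (j : ℝ) < ((n + 1 : ℕ) : ℝ) := by push_cast; exact h3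
    have := Nat.cast_lt.mp h4
    omega
  obtain ⟨t, ht⟩ : ∃ t : ℝ, t = x.2 - r + j * σ - z.2 := ⟨_, rfl⟩
  have htσ : |t| ≤ σ / 2 := by
    have e : (z.2 - x.2 + r) = (z.2 - x.2 + r) / σ * σ := by field_simp
    rw [abs_le, ht]
    constructor <;> nlinarith
  have hpath : ∀ s : ℝ, 0 ≤ s → s ≤ 1 → z + (s * t) • ((κ, 1) : ℝ × ℝ) ∈ closedBall x r := by
    intro s hs0 hs1
    have hst : |s * t| ≤ |t| := by
      rw [abs_mul, abs_of_nonneg hs0]
      exact mul_le_of_le_one_left (abs_nonneg _) hs1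
    have hend : z.2 + t = x.2 - r + j * σ := by rw [ht]; ring
    rw [mem_sq]
    constructor
    · simp only [Prod.fst_add, Prod.smul_fst, smul_eq_mul]
      have e : z.1 + s * t * κ - x.1 = (z.1 - x.1) + s * t * κ := by ring
      rw [e]
      refine (abs_add_le _ _).trans ?_
      have h5 : |s * t * κ| ≤ (1 - ρ) * r := by
        rw [abs_mul]
        have : |s * t| * |κ| ≤ σ * |κ| := by
          apply mul_le_mul_of_nonneg_right _ (abs_nonneg _)
          linarith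
        linarith
      have := hz2.1
      linarith
    · simp only [Prod.snd_add, Prod.smul_snd, smul_eq_mul, mul_one]
      have hj0 : (0:ℝ) ≤ j * σ := by positivity
      have hjn' : (j : ℝ) * σ ≤ 2 * r := by
        rw [← hn]
        apply mul_le_mul_of_nonneg_right _ hσ.le
        exact_mod_cast hjn
      rw [abs_le]
      rcases le_total 0 t with h6 | h6
      · have : s * t ≤ t := by nlinarith
        have : 0 ≤ s * t := by positivity
        constructor <;> linarith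
      · have : t ≤ s * t := by nlinarith
        have : s * t ≤ 0 := by nlinarith
        constructor <;> linarith
  refine ⟨z + t • ((κ, 1) : ℝ × ℝ), ⟨by simpa using hpath 1 zero_le_one le_rfl, j, hjn, ?_⟩, ?_⟩
  · simp only [Prod.snd_add, Prod.smul_snd, smul_eq_mul, mul_one]
    rw [ht]; ring
  · have hseg := Cov.segment (S := S) (ψ := ψ) (x := z) (y := z + t • ((κ, 1) : ℝ × ℝ))
      (ℓ := b * (σ / 2)) (by positivity) (by
        intro s h0 h1
        have e : z + s • (z + t • ((κ, 1) : ℝ × ℝ) - z) = z + (s * t) • ((κ, 1) : ℝ × ℝ) := by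
          rw [add_sub_cancel_left, smul_smul]
        rw [e]
        exact h.maps _ (hQ (hpath s h0 h1))) (by
        intro s s' h0 hss' h1
        have e : ∀ s : ℝ, z + s • (z + t • ((κ, 1) : ℝ × ℝ) - z) =
            z + (s * t) • ((κ, 1) : ℝ × ℝ) := by
          intro s
          rw [add_sub_cancel_left, smul_smul]
        rw [e, e]
        refine (hlip z hzr _ (hpath s' (h0.trans hss') h1) _ (hpath s h0 (hss'.trans h1))).trans ?_
        rw [mul_assoc]
        apply mul_le_mul_of_nonneg_left _ hb.le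
        have : s * t - s' * t = -(s' - s) * t := by ring
        rw [this, abs_mul, abs_neg, abs_of_nonneg (by linarith), mul_comm]
        apply mul_le_mul_of_nonneg_right htσ (by linarith))
    exact hseg.subset (empty_subset _)

end Pool.Agent.H985.Dense
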