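import Pool.Agent.H985.Dense.Lower
import Pool.Agent.H985.Dense.Zigzag

set_option autoImplicit false
open MeasureTheory Set Metric Filter
open scoped ENNReal NNReal RealInnerProductSpace Topology

namespace Pool.Agent.H985.Dense

section cmp
variable {α X Y : Type*} [MetricSpace X] [MeasurableSpace X] [BorelSpace X]
  [MetricSpace Y] [MeasurableSpace Y] [BorelSpace Y]

lemma compare_HE {L : ℝ} (hL : 0 ≤ L) {f : α → X} {g : α → Y} {s : Set α}
    (hf : ∀ x ∈ s, ∀ y ∈ s, dist (f x) (f y) ≤ L * dist (g x) (g y)) :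
    μHE[2] (f '' s) ≤ ENNReal.ofReal (L ^ 2) * μHE[2] (g '' s) := by
  classical
  rcases s.eq_empty_or_nonempty with rfl | ⟨x0, hx0⟩
  · simp
  have : Nonempty α := ⟨x0⟩
  have hinv : ∀ y ∈ g '' s, Function.invFunOn g s y ∈ s ∧ g (Function.invFunOn g s y) = y :=
    fun y hy => ⟨Function.invFunOn_mem hy, Function.invFunOn_eq hy⟩
  have hl : LipschitzOnWith (Real.toNNReal L) (fun y => f (Function.invFunOn g s y)) (g '' s) := by
    apply LipschitzOnWith.of_dist_le_mul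
    intro x hx y hy
    rw [Real.coe_toNNReal _ hL]
    have h1 := hf _ (hinv x hx).1 _ (hinv y hy).1
    rwa [(hinv x hx).2, (hinv y hy).2] at h1
  have himg : (fun y => f (Function.invFunOn g s y)) '' (g '' s) = f '' s := by
    apply Subset.antisymm
    · rintro _ ⟨y, hy, rfl⟩
      exact ⟨_, (hinv y hy).1, rfl⟩
    · rintro _ ⟨x, hx, rfl⟩
      refine ⟨g x, ⟨x, hx, rfl⟩, ?_⟩
      have h2 := hinv (g x) ⟨x, hx, rfl⟩
      have h1 := hf _ h2.1 x hx
      rw [h2.2, dist_self, mul_zero] at h1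
      exact dist_le_zero.mp h1
  have h := lip_HE hl
  rw [himg] at h
  rw [ENNReal.ofReal_pow hL]
  exact h
end cmp

variable {E : Type*} [NormedAddCommGroup E] [InnerProductSpace ℝ E]

/-- A flat square of a chart: `ψ` is affine up to a relative error `δ`. -/
def Flat (ψ : ℝ × ℝ → E) (δ : ℝ) (x : ℝ × ℝ) (r : ℝ) : Prop :=
  0 < r ∧ ∃ A : ℝ × ℝ →L[ℝ] E, Function.Injective A ∧
    ∀ p ∈ closedBall x r, ∀ q ∈ closedBall x r, ‖ψ p - ψ q - A (p - q)‖ ≤ δ * ‖A (p - q)‖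

lemma flat_of_strict {ψ : ℝ × ℝ → E} {A : ℝ × ℝ →L[ℝ] E} {x : ℝ × ℝ}
    (hψ : HasStrictFDerivAt ψ A x) (hA : Function.Injective A) {δ : ℝ} (hδ : 0 < δ) :
    ∃ R > 0, ∀ r, 0 < r → r < R → Flat ψ δ x r := by
  obtain ⟨K, hK, hanti⟩ := (A : ℝ × ℝ →ₗ[ℝ] E).exists_antilipschitzWith
    (LinearMap.ker_eq_bot.mpr hA)
  have hK' : (0:ℝ) < K := hK
  have hm : ∀ u, ‖u‖ ≤ K * ‖A u‖ := by
    intro u
    have := hanti.le_mul_dist u 0
    simpa using this
  have hc : 0 < Real.toNNReal (δ / K) := Real.toNNReal_pos.mpr (by positivity)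
  obtain ⟨s, hs, happ⟩ := hψ.approximates_deriv_on_nhds (Or.inr hc)
  obtain ⟨R, hR, hRs⟩ := Metric.mem_nhds_iff.mp hs
  refine ⟨R, hR, fun r hr hrR => ⟨hr, A, hA, ?_⟩⟩
  intro p hp q hq
  have hsub : closedBall x r ⊆ s := (closedBall_subset_ball hrR).trans hRs
  have h1 := happ p (hsub hp) q (hsub hq)
  refine h1.trans ?_
  rw [Real.coe_toNNReal _ (by positivity)]
  calc δ / K * ‖p - q‖ ≤ δ / K * (K * ‖A (p - q)‖) := by gcongr; exact hm _
    _ = δ * ‖A (p - q)‖ := by field_simp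

lemma lin_data {A : ℝ × ℝ →L[ℝ] E} (hA : Function.Injective A) :
    ∃ a b κ : ℝ, 0 < a ∧ 0 < b ∧ ‖A (1, 0)‖ = a ∧ ‖A (κ, 1)‖ = b ∧
      ⟪A (1, 0), A (κ, 1)⟫ = 0 := by
  have h1 : A (1, 0) ≠ 0 := by
    intro h
    have := hA (h.trans (map_zero A).symm)
    simp [Prod.ext_iff] at this
  have ha : 0 < ‖A (1, 0)‖ := norm_pos_iff.mpr h1
  obtain ⟨κ, hκ⟩ : ∃ κ : ℝ, κ = - ⟪A (1, 0), A (0, 1)⟫ / ‖A (1, 0)‖ ^ 2 := ⟨_, rfl⟩
  have h2 : A (κ, 1) ≠ 0 := by
    intro h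
    have := hA (h.trans (map_zero A).symm)
    simp [Prod.ext_iff] at this
  refine ⟨_, _, κ, ha, norm_pos_iff.mpr h2, rfl, rfl, ?_⟩
  have e : ((κ, 1) : ℝ × ℝ) = κ • ((1, 0) : ℝ × ℝ) + (0, 1) := by simp
  rw [e, map_add, map_smul, inner_add_right, inner_smul_right, real_inner_self_eq_norm_sq, hκ]
  field_simp
  ring

variable [MeasurableSpace E] [BorelSpace E]

lemma vol_sq (x : ℝ × ℝ) {r : ℝ} (hr : 0 ≤ r) :
    volume (closedBall x r) = ENNReal.ofReal ((2 * r) ^ 2) := by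
  rw [← Prod.mk.eta (p := x), ← closedBall_prod_same, Measure.volume_eq_prod, Measure.prod_prod,
    Real.volume_closedBall, Real.volume_closedBall, ← ENNReal.ofReal_mul (by linarith)]
  congr 1; ring

lemma Flat.data {ψ : ℝ × ℝ → E} {δ : ℝ} {x : ℝ × ℝ} {r : ℝ} (h : Flat ψ δ x r) (hδ0 : 0 ≤ δ)
    (hδ : δ ≤ 1 / 2) : ∃ a b κ : ℝ, 0 < a ∧ 0 < b ∧
      (∀ p ∈ closedBall x r, ∀ q ∈ closedBall x r, p.2 = q.2 →
        dist (ψ p) (ψ q) ≤ ((1 + δ) * a) * |p.1 - q.1|) ∧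
      (∀ p ∈ closedBall x r, ∀ t : ℝ, p + t • ((κ, 1) : ℝ × ℝ) ∈ closedBall x r →
        ∀ s : ℝ, p + s • ((κ, 1) : ℝ × ℝ) ∈ closedBall x r →
        dist (ψ (p + s • ((κ, 1) : ℝ × ℝ))) (ψ (p + t • ((κ, 1) : ℝ × ℝ))) ≤
          ((1 + δ) * b) * |s - t|) ∧
      ENNReal.ofReal (a * b * (2 * r) ^ 2) ≤
        ENNReal.ofReal ((1 + 2 * δ) ^ 2) * μHE[2] (ψ '' closedBall x r) ∧
      ∃ τ : E → P2, FlatPiece (4 * δ) (ψ '' closedBall x r) τ := by
  obtain ⟨hr, A, hA, hψ⟩ := h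
  obtain ⟨a, b, κ, ha, hb, hAa, hAb, horth⟩ := lin_data hA
  have hup : ∀ p ∈ closedBall x r, ∀ q ∈ closedBall x r,
      dist (ψ p) (ψ q) ≤ (1 + δ) * ‖A (p - q)‖ := by
    intro p hp q hq
    rw [dist_eq_norm]
    have h1 := hψ p hp q hq
    have h2 := norm_add_le (ψ p - ψ q - A (p - q)) (A (p - q))
    rw [sub_add_cancel] at h2
    linarith
  have hlow : ∀ p ∈ closedBall x r, ∀ q ∈ closedBall x r,
      ‖A (p - q)‖ ≤ (1 + 2 * δ) * dist (ψ p) (ψ q) := by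
    intro p hp q hq
    rw [dist_eq_norm]
    have h1 := hψ p hp q hq
    have h2 := norm_sub_norm_le (A (p - q)) (ψ p - ψ q)
    rw [norm_sub_rev (A (p - q)) (ψ p - ψ q)] at h2
    have h3 : (1 - δ) * ‖A (p - q)‖ ≤ ‖ψ p - ψ q‖ := by linarith
    have h4 := norm_nonneg (A (p - q))
    have h5 : (1 + 2 * δ) * ((1 - δ) * ‖A (p - q)‖) ≤ (1 + 2 * δ) * ‖ψ p - ψ q‖ :=
      mul_le_mul_of_nonneg_left h3 (by linarith)
    nlinarith [mul_nonneg hδ0 h4, mul_nonneg (mul_nonneg hδ0 h4) (by linarith : (0:ℝ) ≤ 1 - 2 * δ)]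
  -- orthonormal coordinates
  obtain ⟨e1, he1⟩ : ∃ e1 : E, e1 = a⁻¹ • A (1, 0) := ⟨_, rfl⟩
  obtain ⟨e2, he2⟩ : ∃ e2 : E, e2 = b⁻¹ • A (κ, 1) := ⟨_, rfl⟩
  have h11 : ⟪e1, e1⟫ = 1 := by
    rw [he1, real_inner_self_eq_norm_sq, norm_smul, hAa, Real.norm_eq_abs, abs_of_pos (by positivity)]
    field_simp
  have h22 : ⟪e2, e2⟫ = 1 := by
    rw [he2, real_inner_self_eq_norm_sq, norm_smul, hAb, Real.norm_eq_abs, abs_of_pos (by positivity)]
    field_simp
  have h12 : ⟪e1, e2⟫ = 0 := by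
    rw [he1, he2, inner_smul_left, inner_smul_right, horth]; simp
  have h21 : ⟪e2, e1⟫ = 0 := by rw [real_inner_comm, h12]
  have hAu : ∀ u : ℝ × ℝ, A u = (a * (u.1 - κ * u.2)) • e1 + (b * u.2) • e2 := by
    intro u
    have e : u = (u.1 - κ * u.2) • ((1, 0) : ℝ × ℝ) + u.2 • ((κ, 1) : ℝ × ℝ) := by
      ext
      · simp; ring
      · simp
    conv_lhs => rw [e]
    rw [map_add, map_smul, map_smul, he1, he2, smul_smul, smul_smul]
    congr 2
    · field_simp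
    · field_simp
  obtain ⟨τ, hτ⟩ : ∃ τ : E → P2, τ = fun v => !₂[⟪e1, v⟫, ⟪e2, v⟫] := ⟨_, rfl⟩
  have hτd : ∀ v w, dist (τ v) (τ w) ^ 2 = ⟪e1, v - w⟫ ^ 2 + ⟪e2, v - w⟫ ^ 2 := by
    intro v w
    rw [hτ, EuclideanSpace.dist_eq, Real.sq_sqrt (by positivity), Fin.sum_univ_two]
    simp only [Matrix.cons_val_zero, Matrix.cons_val_one, Real.dist_eq, sq_abs,
      inner_sub_right]
  have hbess : ∀ v : E, ⟪e1, v⟫ ^ 2 + ⟪e2, v⟫ ^ 2 ≤ ‖v‖ ^ 2 := by
    intro v
    have h0 : 0 ≤ ⟪v - (⟪e1, v⟫ • e1 + ⟪e2, v⟫ • e2), v - (⟪e1, v⟫ • e1 + ⟪e2, v⟫ • e2)⟫ :=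
      real_inner_self_nonneg
    simp only [inner_sub_left, inner_sub_right, inner_add_left, inner_add_right, inner_smul_left,
      inner_smul_right, h11, h22, h12, h21, real_inner_comm e1 v, real_inner_comm e2 v,
      conj_trivial] at h0
    rw [real_inner_self_eq_norm_sq] at h0
    have c1 : ⟪v, e1⟫ = ⟪e1, v⟫ := real_inner_comm _ _
    have c2 : ⟪v, e2⟫ = ⟪e2, v⟫ := real_inner_comm _ _
    nlinarith [h0, c1, c2]
  have hτlip : ∀ v w, dist (τ v) (τ w) ≤ dist v w := by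
    intro v w
    have h1 := hτd v w
    have h2 := hbess (v - w)
    rw [← dist_eq_norm] at h2
    rw [← h1] at h2
    exact abs_le_of_sq_le_sq h2 dist_nonneg |>.trans' (le_abs_self _)
  have hA2 : ∀ u : ℝ × ℝ, ‖A u‖ ^ 2 = ⟪e1, A u⟫ ^ 2 + ⟪e2, A u⟫ ^ 2 := by
    intro u
    rw [← real_inner_self_eq_norm_sq, hAu]
    simp only [inner_add_left, inner_add_right, inner_smul_left, inner_smul_right, h11, h22, h12,
      h21, conj_trivial]
    ring
  have hτA : ∀ p q : ℝ × ℝ, dist (τ (A p)) (τ (A q)) = ‖A (p - q)‖ := by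
    intro p q
    have h1 := hτd (A p) (A q)
    rw [← map_sub, ← hA2] at h1
    exact (sq_eq_sq₀ dist_nonneg (norm_nonneg _)).mp h1
  refine ⟨a, b, κ, ha, hb, ?_, ?_, ?_, τ, hτlip, ?_⟩
  · intro p hp q hq hpq
    refine (hup p hp q hq).trans ?_
    have e : p - q = (p.1 - q.1) • ((1, 0) : ℝ × ℝ) := by
      ext
      · simp
      · simp [hpq]
    rw [e, map_smul, norm_smul, hAa, Real.norm_eq_abs]
    apply le_of_eq; ring
  · intro p _ t ht s hs
    refine (hup _ hs _ ht).trans ?_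
    have e : p + s • ((κ, 1) : ℝ × ℝ) - (p + t • ((κ, 1) : ℝ × ℝ)) =
        (s - t) • ((κ, 1) : ℝ × ℝ) := by rw [sub_smul]; abel
    rw [e, map_smul, norm_smul, hAb, Real.norm_eq_abs]
    apply le_of_eq; ring
  · have hcmp := compare_HE (f := fun p => τ (A p)) (g := ψ) (s := closedBall x r)
      (L := 1 + 2 * δ) (by positivity) (by
        intro p hp q hq
        rw [hτA]; exact hlow p hp q hq)
    refine le_trans (le_of_eq ?_) hcmp
    rw [EuclideanSpace.euclideanHausdorffMeasure_eq_volume]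
    let L := Matrix.toLin (Module.Basis.finTwoProd ℝ) (Module.Basis.finTwoProd ℝ) !![a, -(a * κ); 0, b]
    have himg : (fun p => τ (A p)) '' closedBall x r = eqv ⁻¹' (L '' closedBall x r) := by
      have hL : ∀ u, eqv (τ (A u)) = L u := by
        intro u
        rw [eqv_apply, hτ]
        simp only [Matrix.cons_val_zero, Matrix.cons_val_one]
        rw [Matrix.toLin_finTwoProd_apply, hAu]
        simp only [inner_add_right, inner_smul_right, h11, h22, h12, h21]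
        ext
        · simp; ring
        · simp
      ext y
      constructor
      · rintro ⟨u, hu, rfl⟩
        exact ⟨u, hu, (hL u).symm⟩
      · rintro ⟨u, hu, hy⟩
        refine ⟨u, hu, ?_⟩
        apply eqv.injective
        rw [← hy]; exact hL u
    rw [himg, eqv_mp.measure_preimage_equiv, Measure.addHaar_image_linearMap, vol_sq x hr.le,
      ← ENNReal.ofReal_mul (abs_nonneg _)]
    congr 1
    rw [LinearMap.det_toLin, Matrix.det_fin_two]
    simp only [Matrix.of_apply, Matrix.cons_val', Matrix.cons_val_zero, Matrix.cons_val_one,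
      Matrix.cons_val_fin_one, mul_zero, sub_zero]
    rw [abs_of_pos (by positivity)]
  · rintro _ ⟨p, hp, rfl⟩ _ ⟨q, hq, rfl⟩
    have h1 := hup p hp q hq
    have h2 : (1 - δ) * ‖A (p - q)‖ ≤ dist (τ (ψ p)) (τ (ψ q)) := by
      have h3 : dist (τ (ψ p)) (τ (ψ q)) ^ 2 = _ := hτd (ψ p) (ψ q)
      -- τ is additive
      have hsub : ∀ v w : E, τ (v - w) = τ v - τ w := by
        intro v w
        rw [hτ]
        ext i
        fin_cases i <;> simp [inner_sub_right]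
      have hn : ∀ v : E, ‖τ v‖ ≤ ‖v‖ := by
        intro v
        have := hτlip v 0
        have h0 : τ 0 = 0 := by have := hsub 0 0; simpa using this
        rw [h0, dist_zero_right, dist_zero_right] at this
        exact this
      have h4 : ‖τ (A (p - q))‖ = ‖A (p - q)‖ := by
        have := hτA (p - q) 0
        rw [map_zero, sub_zero] at this
        have h0 : τ 0 = 0 := by have := hsub 0 0; simpa using this
        rwa [h0, dist_zero_right] at this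
      have h5 := hψ p hp q hq
      have h6 := (hn (ψ p - ψ q - A (p - q))).trans h5
      rw [hsub] at h6
      have h7 := norm_sub_norm_le (τ (A (p - q))) (τ (ψ p - ψ q))
      rw [norm_sub_rev, h4] at h7
      rw [dist_eq_norm, ← hsub]
      linarith
    have h3 := norm_nonneg (A (p - q))
    have h8 : (1 + 4 * δ) * ((1 - δ) * ‖A (p - q)‖) ≤ (1 + 4 * δ) * dist (τ (ψ p)) (τ (ψ q)) :=
      mul_le_mul_of_nonneg_left h2 (by linarith)
    have h9 : (1 + δ) ≤ (1 + 4 * δ) * (1 - δ) := by nlinarith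
    nlinarith [mul_le_mul_of_nonneg_right h9 h3]

end Pool.Agent.H985.Dense
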