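import Pool.Agent.H985.Dense.Patch

set_option autoImplicit false
open MeasureTheory Set Metric Filter
open scoped ENNReal NNReal RealInnerProductSpace Topology

namespace Pool.Agent.H985.Dense

variable {E : Type*} [NormedAddCommGroup E] [InnerProductSpace ℝ E]

/-- Selection of finitely many disjoint flat squares. -/
lemma select {ψ : ℝ × ℝ → E}
    (hdiff : ∀ᵐ x : ℝ × ℝ, x ∈ ball (0 : ℝ × ℝ) 1 →
      ∃ A : ℝ × ℝ →L[ℝ] E, Function.Injective A ∧ HasStrictFDerivAt ψ A x)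
    {δ : ℝ} (hδ : 0 < δ) {η : ℝ} (hη : 0 < η) :
    ∃ (F : Finset (ℝ × ℝ)) (r : ℝ × ℝ → ℝ), (∀ x ∈ F, Flat ψ δ x (r x)) ∧
      (∀ x ∈ F, closedBall x (r x) ⊆ ball 0 1) ∧
      (F : Set (ℝ × ℝ)).PairwiseDisjoint (fun x => closedBall x (r x)) ∧
      volume (Q0 \ ⋃ x ∈ F, closedBall x (r x)) < ENNReal.ofReal η := by
  classical
  obtain ⟨G, hG⟩ : ∃ G : Set (ℝ × ℝ), G = {x | x ∈ ball (0 : ℝ × ℝ) 1 ∧
    ∃ A : ℝ × ℝ →L[ℝ] E, Function.Injective A ∧ HasStrictFDerivAt ψ A x} := ⟨_, rfl⟩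
  have hf : ∀ x ∈ G, ∀ d > 0,
      ({r | Flat ψ δ x r ∧ closedBall x r ⊆ ball (0 : ℝ × ℝ) 1} ∩ Ioo 0 d).Nonempty := by
    intro x hx d hd
    rw [hG] at hx
    obtain ⟨hx1, A, hA, hst⟩ := hx
    obtain ⟨R, hR, hflat⟩ := flat_of_strict hst hA hδ
    obtain ⟨R', hR', hsub⟩ := Metric.isOpen_iff.mp isOpen_ball x hx1
    refine ⟨min (min R R') d / 2, ⟨⟨?_, ?_⟩, ?_, ?_⟩⟩
    · apply hflat
      · positivity
      · have : min (min R R') d ≤ R := (min_le_left _ _).trans (min_le_left _ _)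
        linarith [lt_min (lt_min hR hR') hd]
    · refine (closedBall_subset_ball ?_).trans hsub
      have : min (min R R') d ≤ R' := (min_le_left _ _).trans (min_le_right _ _)
      linarith [lt_min (lt_min hR hR') hd]
    · positivity
    · have : min (min R R') d ≤ d := min_le_right _ _
      linarith [lt_min (lt_min hR hR') hd]
  obtain ⟨t, r, htc, hts, htr, hcov, hdisj⟩ :=
    Besicovitch.exists_disjoint_closedBall_covering_ae (volume : Measure (ℝ × ℝ)) _ G hf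
      (fun _ => 1) (fun _ _ => one_pos)
  have hflat : ∀ x ∈ t, Flat ψ δ x (r x) := fun x hx => (htr x hx).1.1
  have hsub : ∀ x ∈ t, closedBall x (r x) ⊆ ball 0 1 := fun x hx => (htr x hx).1.2
  have hsum : ∑' x : t, volume (closedBall (x : ℝ × ℝ) (r x)) ≠ ⊤ := by
    rw [← measure_biUnion htc hdisj (fun _ _ => measurableSet_closedBall)]
    exact ne_top_of_le_ne_top measure_ball_lt_top.ne (measure_mono (iUnion₂_subset hsub))
  obtain ⟨F, hF⟩ := ((tendsto_order.1 (ENNReal.tendsto_tsum_compl_atTop_zero hsum)).2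
    (ENNReal.ofReal η) (by positivity)).exists
  have hGnull : volume (Q0 \ G) = 0 := by
    have h1 : Q0 \ G ⊆ (Q0 \ ball 0 1) ∪ {x | ¬ (x ∈ ball (0 : ℝ × ℝ) 1 →
        ∃ A : ℝ × ℝ →L[ℝ] E, Function.Injective A ∧ HasStrictFDerivAt ψ A x)} := by
      intro x hx
      by_cases hb : x ∈ ball (0 : ℝ × ℝ) 1
      · right
        intro h
        apply hx.2
        rw [hG]
        exact ⟨hb, h hb⟩
      · exact Or.inl ⟨hx.1, hb⟩
    refine measure_mono_null h1 (measure_union_null ?_ hdiff)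
    rw [closedBall_sdiff_ball]
    exact Measure.addHaar_sphere volume 0 1
  refine ⟨F.map (Function.Embedding.subtype _), r, ?_, ?_, ?_, ?_⟩
  · intro x hx
    rw [Finset.mem_map] at hx
    obtain ⟨y, -, rfl⟩ := hx
    exact hflat y y.2
  · intro x hx
    rw [Finset.mem_map] at hx
    obtain ⟨y, -, rfl⟩ := hx
    exact hsub y y.2
  · apply hdisj.subset
    intro x hx
    rw [Finset.mem_coe, Finset.mem_map] at hx
    obtain ⟨y, -, rfl⟩ := hx
    exact y.2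
  · have h1 : Q0 \ ⋃ x ∈ F.map (Function.Embedding.subtype _), closedBall x (r x) ⊆
        (Q0 \ G) ∪ (G \ ⋃ x ∈ t, closedBall x (r x)) ∪
          ⋃ x : {x : t // x ∉ F}, closedBall ((x : t) : ℝ × ℝ) (r (x : t)) := by
      intro x hx
      by_cases hxG : x ∈ G
      · by_cases hxt : x ∈ ⋃ x ∈ t, closedBall x (r x)
        · rw [mem_iUnion₂] at hxt
          obtain ⟨y, hy, hxy⟩ := hxt
          right
          rw [mem_iUnion]
          refine ⟨⟨⟨y, hy⟩, ?_⟩, hxy⟩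
          intro hyF
          apply hx.2
          rw [mem_iUnion₂]
          exact ⟨y, Finset.mem_map.mpr ⟨⟨y, hy⟩, hyF, rfl⟩, hxy⟩
        · exact Or.inl (Or.inr ⟨hxG, hxt⟩)
      · exact Or.inl (Or.inl ⟨hx.1, hxG⟩)
    have htc' : Countable {x : t // x ∉ F} := by
      have : Countable t := htc.to_subtype
      infer_instance
    calc _ ≤ volume ((Q0 \ G) ∪ (G \ ⋃ x ∈ t, closedBall x (r x)) ∪
          ⋃ x : {x : t // x ∉ F}, closedBall ((x : t) : ℝ × ℝ) (r (x : t))) := measure_mono h1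
      _ ≤ volume ((Q0 \ G) ∪ (G \ ⋃ x ∈ t, closedBall x (r x))) +
          volume (⋃ x : {x : t // x ∉ F}, closedBall ((x : t) : ℝ × ℝ) (r (x : t))) :=
          measure_union_le _ _
      _ = volume (⋃ x : {x : t // x ∉ F}, closedBall ((x : t) : ℝ × ℝ) (r (x : t))) := by
          rw [measure_union_null hGnull hcov, zero_add]
      _ ≤ ∑' x : {x : t // x ∉ F}, volume (closedBall ((x : t) : ℝ × ℝ) (r (x : t))) :=
          measure_iUnion_le _
      _ < _ := hF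

/-- Cost of the zigzag on a flat square. -/
lemma patch_cost {S : Set E} [MeasurableSpace E] [BorelSpace E] {ψ : ℝ × ℝ → E} {C : ℝ}
    (h : Chart S ψ C) {δ : ℝ}
    (hδ0 : 0 ≤ δ) (hδ : δ ≤ 1 / 2) {x : ℝ × ℝ} {r : ℝ} (hflat : Flat ψ δ x r)
    (hQ : closedBall x r ⊆ Q0) {ρ : ℝ} (hρ : ρ < 1) :
    ∃ α K ε0 : ℝ, 0 ≤ α ∧ 0 ≤ K ∧ 0 < ε0 ∧
      ENNReal.ofReal α ≤ ENNReal.ofReal ((1 + 2 * δ) ^ 2) * μHE[2] (ψ '' closedBall x r) ∧
      ∀ ε, 0 < ε → ε < ε0 → ∃ (V : Set E) (p q : E),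
        Cov S V p q (α * (1 + δ) ^ 2 / (2 * ε) + K) ∧
        ∀ z ∈ closedBall x (ρ * r), ∃ v ∈ V, Cov S ∅ (ψ z) v ε := by
  have hr := hflat.1
  obtain ⟨a, b, κ, ha, hb, h1, h2, h3, -⟩ := hflat.data hδ0 hδ
  have hC := h.pos
  obtain ⟨a', ha'⟩ : ∃ a', a' = (1 + δ) * a := ⟨_, rfl⟩
  obtain ⟨b', hb'⟩ : ∃ b', b' = (1 + δ) * b := ⟨_, rfl⟩
  rw [← ha'] at h1
  rw [← hb'] at h2
  have ha'0 : 0 < a' := by rw [ha']; positivity
  have hb'0 : 0 < b' := by rw [hb']; positivity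
  refine ⟨a * b * (2 * r) ^ 2, 4 * a' * r + 2 * r * C, (1 - ρ) * r * b' / (2 * (|κ| + 1)),
    by positivity, by positivity, ?_, h3, ?_⟩
  · have : 0 < 1 - ρ := by linarith
    positivity
  intro ε hε hε0
  obtain ⟨n, hn⟩ : ∃ n : ℕ, n = ⌈b' * r / ε⌉₊ := ⟨_, rfl⟩
  have hq : 0 < b' * r / ε := by positivity
  have hn0 : 0 < n := by rw [hn]; exact Nat.ceil_pos.mpr hq
  have hn0' : (0:ℝ) < n := by exact_mod_cast hn0
  have hn1 : b' * r / ε ≤ n := by rw [hn]; exact Nat.le_ceil _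
  have hn2 : (n:ℝ) ≤ b' * r / ε + 1 := by rw [hn]; exact (Nat.ceil_lt_add_one hq.le).le
  obtain ⟨σ, hσ⟩ : ∃ σ : ℝ, σ = 2 * r / n := ⟨_, rfl⟩
  have hσ0 : 0 < σ := by rw [hσ]; positivity
  have hnσ : (n:ℝ) * σ = 2 * r := by rw [hσ]; field_simp
  have hbσ : b' * (σ / 2) ≤ ε := by
    have h4 : b' * r ≤ n * ε := by rwa [div_le_iff₀ hε] at hn1
    have h5 : (n:ℝ) * (b' * (σ / 2)) = b' * r := by
      calc (n:ℝ) * (b' * (σ / 2)) = b' * ((n * σ) / 2) := by ring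
        _ = b' * r := by rw [hnσ]; ring
    have h6 : (n:ℝ) * (b' * (σ / 2)) ≤ n * ε := by rw [h5]; exact h4
    exact le_of_mul_le_mul_left h6 hn0'
  have hκ : |κ| * σ ≤ (1 - ρ) * r := by
    rw [lt_div_iff₀ (by positivity)] at hε0
    have h4 : σ ≤ 2 * ε / b' := by
      rw [le_div_iff₀ hb'0]; linarith
    have h5 : |κ| * σ ≤ (|κ| + 1) * (2 * ε / b') := by
      apply mul_le_mul _ h4 hσ0.le (by positivity)
      linarith
    refine h5.trans ?_
    have e : (|κ| + 1) * (2 * ε / b') = (ε * (2 * (|κ| + 1))) / b' := by ring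
    rw [e, div_le_iff₀ hb'0]
    exact hε0.le
  obtain ⟨e, -, hcov⟩ := h.zigzag hr hQ ha'0 h1 hσ0 n (by rw [hnσ])
  refine ⟨ψ '' lines x r σ n, _, _, hcov.mono ?_, ?_⟩
  · have e1 : (n:ℝ) * (C * σ) = 2 * r * C := by
      calc (n:ℝ) * (C * σ) = C * (n * σ) := by ring
        _ = 2 * r * C := by rw [hnσ]; ring
    rw [e1]
    have e2 : a * b * (2 * r) ^ 2 * (1 + δ) ^ 2 / (2 * ε) = (b' * r / ε) * (a' * (2 * r)) := by
      rw [ha', hb']; field_simp
    rw [e2]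
    have h4 : ((n:ℝ) + 1) * (a' * (2 * r)) ≤ (b' * r / ε + 2) * (a' * (2 * r)) := by
      apply mul_le_mul_of_nonneg_right _ (by positivity)
      linarith
    linarith
  · intro z hz
    obtain ⟨v, hv, hcv⟩ := h.zigzag_dense hr hQ hb'0 h2 hσ0 hnσ hρ.le hκ hz
    exact ⟨ψ v, mem_image_of_mem _ hv, hcv.mono hbσ⟩

/-- Concatenation of finitely many tours. -/
lemma combine {E : Type*} [MetricSpace E] {S : Set E} {D : ℝ} (hD : ∀ p ∈ S, ∀ q ∈ S, Cov S ∅ p q D) {ι : Type*}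
    (F : Finset ι) (W : ι → Set E) (cost : ι → ℝ)
    (h : ∀ i ∈ F, ∃ p q, Cov S (W i) p q (cost i)) :
    ∀ p0 ∈ S, ∃ q, Cov S (⋃ i ∈ F, W i) p0 q (∑ i ∈ F, (cost i + D)) := by
  classical
  induction F using Finset.induction_on with
  | empty =>
    intro p0 hp0
    refine ⟨p0, ?_⟩
    simpa using (Cov.refl hp0).subset (empty_subset _)
  | insert i F hi ih =>
    intro p0 hp0
    obtain ⟨p, q, hpq⟩ := h i (Finset.mem_insert_self _ _)
    obtain ⟨q', hq'⟩ := ih (fun j hj => h j (Finset.mem_insert_of_mem hj)) q hpq.right_mem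
    refine ⟨q', ?_⟩
    have h1 := ((hD p0 hp0 p hpq.left_mem).concat hpq).concat hq'
    rw [Finset.sum_insert hi, Finset.set_biUnion_insert]
    have e : D + cost i + ∑ j ∈ F, (cost j + D) = cost i + D + ∑ j ∈ F, (cost j + D) := by ring
    rw [e] at h1
    apply h1.subset
    apply union_subset_union_left
    exact subset_union_right

end Pool.Agent.H985.Dense
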