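import Pool.Agent.H985.Dense.Cov

set_option autoImplicit false
open MeasureTheory Set Metric
open scoped ENNReal NNReal

namespace Pool.Agent.H985.Dense

variable {E : Type*} [MetricSpace E]

/-- The parameter square. -/
abbrev Q0 : Set (ℝ × ℝ) := closedBall (0 : ℝ × ℝ) 1

lemma mem_Q0 {z : ℝ × ℝ} : z ∈ Q0 ↔ |z.1| ≤ 1 ∧ |z.2| ≤ 1 := by
  rw [mem_closedBall, Prod.dist_eq, Real.dist_eq, Real.dist_eq, sup_le_iff]
  simp

/-- A chart: Lipschitz map of the square into `S`. -/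
structure Chart (S : Set E) (ψ : ℝ × ℝ → E) (C : ℝ) : Prop where
  pos : 0 < C
  lip : ∀ x ∈ Q0, ∀ y ∈ Q0, dist (ψ x) (ψ y) ≤ C * dist x y
  maps : ∀ x ∈ Q0, ψ x ∈ S

variable {S : Set E} {ψ : ℝ × ℝ → E} {C : ℝ}

lemma seg_mem {x y : ℝ × ℝ} {r : ℝ} {c : ℝ × ℝ} (hx : x ∈ closedBall c r) (hy : y ∈ closedBall c r)
    {s : ℝ} (h0 : 0 ≤ s) (h1 : s ≤ 1) : x + s • (y - x) ∈ closedBall c r := by
  have := (convex_closedBall c r) hx hy (sub_nonneg.mpr h1) h0 (by ring)
  convert this using 1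
  rw [smul_sub, sub_smul, one_smul]; abel

lemma Chart.seg (h : Chart S ψ C) {x y : ℝ × ℝ} (hx : x ∈ Q0) (hy : y ∈ Q0) {c : ℝ} (hc : 0 < c)
    (hd : dist x y ≤ c) :
    Cov S (ψ '' {z | ∃ s : ℝ, 0 ≤ s ∧ s ≤ 1 ∧ z = x + s • (y - x)}) (ψ x) (ψ y) (C * c) := by
  apply Cov.segment (mul_pos h.pos hc)
  · intro s h0 h1
    exact h.maps _ (seg_mem hx hy h0 h1)
  · intro s t hs hst ht
    refine (h.lip _ (seg_mem hx hy hs (hst.trans ht)) _ (seg_mem hx hy (hs.trans hst) ht)).trans ?_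
    have e : dist (x + s • (y - x)) (x + t • (y - x)) = (t - s) * dist x y := by
      rw [dist_eq_norm, dist_comm x y, dist_eq_norm]
      have : x + s • (y - x) - (x + t • (y - x)) = (s - t) • (y - x) := by
        rw [sub_smul]; abel
      rw [this, norm_smul, Real.norm_eq_abs, abs_sub_comm, abs_of_nonneg (by linarith)]
    rw [e, mul_assoc]
    apply mul_le_mul_of_nonneg_left _ h.pos.le
    rw [mul_comm]
    apply mul_le_mul_of_nonneg_right hd (by linarith)

lemma Chart.seg' (h : Chart S ψ C) {x y : ℝ × ℝ} (hx : x ∈ Q0) (hy : y ∈ Q0) {c : ℝ} (hc : 0 < c)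
    (hd : dist x y ≤ c) : Cov S {ψ y} (ψ x) (ψ y) (C * c) := by
  apply (h.seg hx hy hc hd).subset
  rintro _ rfl
  exact ⟨y, ⟨1, zero_le_one, le_rfl, by simp⟩, rfl⟩

lemma dist_le_add (x y : ℝ × ℝ) : dist x y ≤ |x.1 - y.1| + |x.2 - y.2| := by
  rw [Prod.dist_eq, Real.dist_eq, Real.dist_eq, sup_le_iff]
  constructor <;> linarith [abs_nonneg (x.1 - y.1), abs_nonneg (x.2 - y.2)]

/-- Visiting the points of one strip. -/
lemma Chart.strip (h : Chart S ψ C) {w : ℝ} (hw : 0 < w) (n : ℕ) :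
    ∀ F : Finset (ℝ × ℝ), F.card = n → (∀ f ∈ F, f ∈ Q0) → (∀ f ∈ F, ∀ g ∈ F, |f.2 - g.2| ≤ w) →
      ∀ z ∈ Q0, (∀ f ∈ F, z.1 ≤ f.1 ∧ |z.2 - f.2| ≤ w) →
      ∃ q ∈ Q0, Cov S (ψ '' F) (ψ z) (ψ q) (C * ((1 - z.1) + n * w)) := by
  classical
  induction n with
  | zero =>
    intro F hF _ _ z hz _
    rw [Finset.card_eq_zero] at hF
    subst hF
    refine ⟨z, hz, ?_⟩
    have h1 := (Cov.refl (h.maps z hz)).subset (empty_subset _)
    have hz1 := (abs_le.mp (mem_Q0.mp hz).1).2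
    have := h1.mono (b := C * ((1 - z.1) + (0 : ℕ) * w)) (by
      have := h.pos
      simp only [Nat.cast_zero, zero_mul, add_zero]
      exact mul_nonneg this.le (by linarith))
    simpa using this
  | succ n ih =>
    intro F hF hFQ hFw z hz hzF
    have hne : F.Nonempty := by rw [← Finset.card_pos]; omega
    obtain ⟨f, hf, hmin⟩ := Finset.exists_min_image F (fun x => x.1) hne
    have hF' : (F.erase f).card = n := by rw [Finset.card_erase_of_mem hf]; omega
    obtain ⟨q, hq, hcov⟩ := ih (F.erase f) hF' (fun g hg => hFQ g (Finset.mem_of_mem_erase hg))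
      (fun g hg g' hg' => hFw g (Finset.mem_of_mem_erase hg) g' (Finset.mem_of_mem_erase hg'))
      f (hFQ f hf) (fun g hg => ⟨hmin g (Finset.mem_of_mem_erase hg),
        hFw f hf g (Finset.mem_of_mem_erase hg)⟩)
    have hzf := hzF f hf
    have hd : dist z f ≤ (f.1 - z.1) + w := by
      refine (dist_le_add z f).trans ?_
      rw [abs_sub_comm z.1, abs_of_nonneg (by linarith [hzf.1])]
      linarith [hzf.2]
    have h1 := h.seg' hz (hFQ f hf) (c := (f.1 - z.1) + w) (by linarith [hzf.1]) hd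
    have h2 := h1.concat hcov
    refine ⟨q, hq, ?_⟩
    have e : C * ((f.1 - z.1) + w) + C * ((1 - f.1) + n * w) =
        C * ((1 - z.1) + ((n + 1 : ℕ) : ℝ) * w) := by push_cast; ring
    rw [e] at h2
    apply h2.subset
    rintro _ ⟨g, hg, rfl⟩
    by_cases hgf : g = f
    · subst hgf; exact Or.inl rfl
    · exact Or.inr ⟨g, Finset.mem_coe.mpr (Finset.mem_erase.mpr ⟨hgf, hg⟩), rfl⟩

lemma dist_le_two {x y : ℝ × ℝ} (hx : x ∈ Q0) (hy : y ∈ Q0) : dist x y ≤ 2 := by
  have := dist_triangle_right x y 0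
  rw [mem_closedBall] at hx hy
  linarith

/-- Visiting a finite set of points of the square. -/
lemma Chart.strips (h : Chart S ψ C) {w : ℝ} (hw : 0 < w) (T : Finset (ℝ × ℝ))
    (hT : ∀ t ∈ T, t ∈ Q0) (B : ℕ) : ∀ z ∈ Q0, ∃ q ∈ Q0,
      Cov S (ψ '' (T.filter (fun t => ⌊(t.2 + 1) / w⌋₊ < B) : Finset (ℝ × ℝ))) (ψ z) (ψ q)
        (C * (4 * B + (T.filter (fun t => ⌊(t.2 + 1) / w⌋₊ < B)).card * w)) := by
  classical
  induction B with
  | zero =>
    intro z hz
    refine ⟨z, hz, ?_⟩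
    have h1 := (Cov.refl (h.maps z hz)).subset (empty_subset _)
    simpa using h1
  | succ B ih =>
    intro z hz
    obtain ⟨q, hq, hcov⟩ := ih z hz
    let Tb := T.filter (fun t => ⌊(t.2 + 1) / w⌋₊ = B)
    have hsplit : T.filter (fun t => ⌊(t.2 + 1) / w⌋₊ < B + 1) =
        T.filter (fun t => ⌊(t.2 + 1) / w⌋₊ < B) ∪ Tb := by
      ext t
      simp only [Finset.mem_filter, Finset.mem_union, Tb]
      constructor
      · rintro ⟨h1, h2⟩
        rcases Nat.lt_succ_iff_lt_or_eq.mp h2 with h3 | h3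
        · exact Or.inl ⟨h1, h3⟩
        · exact Or.inr ⟨h1, h3⟩
      · rintro (⟨h1, h2⟩ | ⟨h1, h2⟩)
        · exact ⟨h1, by omega⟩
        · exact ⟨h1, by omega⟩
    have hdisj : Disjoint (T.filter (fun t => ⌊(t.2 + 1) / w⌋₊ < B)) Tb := by
      rw [Finset.disjoint_left]
      intro t h1 h2
      rw [Finset.mem_filter] at h1
      have h2' := (Finset.mem_filter.mp h2).2
      omega
    have hcard : (T.filter (fun t => ⌊(t.2 + 1) / w⌋₊ < B + 1)).card =
        (T.filter (fun t => ⌊(t.2 + 1) / w⌋₊ < B)).card + Tb.card := by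
      rw [hsplit, Finset.card_union_of_disjoint hdisj]
    have hTbQ : ∀ t ∈ Tb, t ∈ Q0 := fun t ht => hT t (Finset.mem_filter.mp ht).1
    have hTbw : ∀ f ∈ Tb, ∀ g ∈ Tb, |f.2 - g.2| ≤ w := by
      intro f hf g hg
      have hf0 : 0 ≤ (f.2 + 1) / w :=
        div_nonneg (by linarith [(abs_le.mp (mem_Q0.mp (hTbQ f hf)).2).1]) hw.le
      have hg0 : 0 ≤ (g.2 + 1) / w :=
        div_nonneg (by linarith [(abs_le.mp (mem_Q0.mp (hTbQ g hg)).2).1]) hw.le
      have h1 := Nat.floor_le hf0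
      have h2 := Nat.lt_floor_add_one ((f.2 + 1) / w)
      have h3 := Nat.floor_le hg0
      have h4 := Nat.lt_floor_add_one ((g.2 + 1) / w)
      rw [(Finset.mem_filter.mp hf).2] at h1 h2
      rw [(Finset.mem_filter.mp hg).2] at h3 h4
      rw [le_div_iff₀ hw] at h1 h3
      rw [div_lt_iff₀ hw] at h2 h4
      rw [abs_le]
      constructor <;> nlinarith
    rcases Tb.eq_empty_or_nonempty with hE | ⟨f0, hf0⟩
    · refine ⟨q, hq, ?_⟩
      rw [hsplit, hE, Finset.union_empty]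
      apply hcov.mono
      have := h.pos
      apply mul_le_mul_of_nonneg_left _ h.pos.le
      push_cast
      linarith
    · have hf0Q := mem_Q0.mp (hTbQ f0 hf0)
      have hzb : ((-1, f0.2) : ℝ × ℝ) ∈ Q0 := mem_Q0.mpr ⟨by simp, hf0Q.2⟩
      obtain ⟨q', hq', hcov'⟩ := h.strip hw Tb.card Tb rfl hTbQ hTbw (-1, f0.2) hzb (by
        intro f hf
        exact ⟨(abs_le.mp (mem_Q0.mp (hTbQ f hf)).1).1, hTbw f0 hf0 f hf⟩)
      have h1 := h.seg' hq hzb (c := 2) (by norm_num) (dist_le_two hq hzb)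
      have h2 := (hcov.concat h1).concat hcov'
      refine ⟨q', hq', ?_⟩
      rw [hcard]
      apply (h2.subset _).mono
      · apply le_of_eq
        push_cast
        ring
      · rw [hsplit, Finset.coe_union, image_union]
        apply union_subset_union_left
        exact subset_union_left

/-- Cost of visiting a finite set of points of the square. -/
lemma Chart.visit (h : Chart S ψ C) {w : ℝ} (hw : 0 < w) (T : Finset (ℝ × ℝ))
    (hT : ∀ t ∈ T, t ∈ Q0) : ∀ z ∈ Q0, ∃ q ∈ Q0,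
      Cov S (ψ '' T) (ψ z) (ψ q) (C * (4 * (2 / w + 1) + T.card * w)) := by
  intro z hz
  obtain ⟨q, hq, hcov⟩ := h.strips hw T hT (⌊2 / w⌋₊ + 1) z hz
  have hall : T.filter (fun t => ⌊(t.2 + 1) / w⌋₊ < ⌊2 / w⌋₊ + 1) = T := by
    rw [Finset.filter_eq_self]
    intro t ht
    apply Nat.lt_succ_of_le
    apply Nat.floor_le_floor
    apply div_le_div_of_nonneg_right _ hw.le
    linarith [(abs_le.mp (mem_Q0.mp (hT t ht)).2).2]
  rw [hall] at hcov
  refine ⟨q, hq, hcov.mono ?_⟩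
  apply mul_le_mul_of_nonneg_left _ h.pos.le
  have : (⌊2 / w⌋₊ : ℝ) ≤ 2 / w := Nat.floor_le (by positivity)
  push_cast
  linarith

/-- Finite nets with few points. -/
lemma exists_net {R : Set (ℝ × ℝ)} {h : ℝ} (hh : 0 < h)
    {v : ℝ} (hv0 : 0 ≤ v) (hv : volume (thickening (h / 2) R) ≤ ENNReal.ofReal v) :
    ∃ T : Finset (ℝ × ℝ), (∀ t ∈ T, t ∈ R) ∧ (∀ x ∈ R, ∃ t ∈ T, dist x t ≤ h) ∧
      T.card * h ^ 2 ≤ v := by
  classical
  let N : Set ℕ := {n | ∃ T : Finset (ℝ × ℝ), T.card = n ∧ (∀ t ∈ T, t ∈ R) ∧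
    (∀ s ∈ T, ∀ t ∈ T, s ≠ t → h ≤ dist s t)}
  have hbound : ∀ T : Finset (ℝ × ℝ), (∀ t ∈ T, t ∈ R) →
      (∀ s ∈ T, ∀ t ∈ T, s ≠ t → h ≤ dist s t) → T.card * h ^ 2 ≤ v := by
    intro T h1 h2
    have hball : ∀ t : ℝ × ℝ, volume (ball t (h / 2)) = ENNReal.ofReal (h ^ 2) := by
      intro t
      rw [← Prod.mk.eta (p := t), ← ball_prod_same, Measure.volume_eq_prod, Measure.prod_prod,
        Real.volume_ball, Real.volume_ball, ← ENNReal.ofReal_mul (by linarith)]
      congr 1; ring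
    have hd : (T : Set (ℝ × ℝ)).PairwiseDisjoint (fun t => ball t (h / 2)) := by
      intro s hs t ht hst
      apply ball_disjoint_ball
      have := h2 s hs t ht hst
      linarith
    have h3 : ∑ t ∈ T, volume (ball t (h / 2)) ≤ ENNReal.ofReal v := by
      rw [← measure_biUnion_finset hd (fun _ _ => measurableSet_ball)]
      refine le_trans (measure_mono ?_) hv
      apply iUnion₂_subset
      intro t ht x hx
      rw [mem_thickening_iff]
      exact ⟨t, h1 t ht, hx⟩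
    simp only [hball, Finset.sum_const, nsmul_eq_mul] at h3
    rw [← ENNReal.ofReal_natCast, ← ENNReal.ofReal_mul (by positivity)] at h3
    exact (ENNReal.ofReal_le_ofReal_iff hv0).mp h3
  have hne : N.Nonempty := ⟨0, ∅, by simp, by simp, by simp⟩
  have hbdd : BddAbove N := by
    obtain ⟨K, hK⟩ := exists_nat_gt (v / h ^ 2)
    refine ⟨K, ?_⟩
    rintro _ ⟨T, rfl, h1, h2⟩
    have := hbound T h1 h2
    rw [← le_div_iff₀ (by positivity)] at this
    have : (T.card : ℝ) < K := lt_of_le_of_lt this hK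
    exact_mod_cast this.le
  obtain ⟨T, hTc, hT1, hT2⟩ := Nat.sSup_mem hne hbdd
  refine ⟨T, hT1, ?_, hbound T hT1 hT2⟩
  intro x hx
  by_contra hcon
  push Not at hcon
  have hxT : x ∉ T := fun hxT => by
    have := hcon x hxT
    rw [dist_self] at this; linarith
  have : (insert x T).card ∈ N := by
    refine ⟨insert x T, rfl, ?_, ?_⟩
    · intro t ht
      rcases Finset.mem_insert.mp ht with rfl | ht
      · exact hx
      · exact hT1 t ht
    · intro s hs t ht hst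
      rcases Finset.mem_insert.mp hs with hs' | hs' <;>
        rcases Finset.mem_insert.mp ht with ht' | ht'
      · exact absurd (hs'.trans ht'.symm) hst
      · rw [hs']; exact (hcon t ht').le
      · rw [ht', dist_comm]; exact (hcon s hs').le
      · exact hT2 s hs' t ht' hst
  have h1 := le_csSup hbdd this
  rw [Finset.card_insert_of_notMem hxT, ← hTc] at h1
  omega

end Pool.Agent.H985.Dense
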