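import Mathlib

set_option autoImplicit false
open MeasureTheory Set Metric
open scoped ENNReal NNReal

namespace Pool.Agent.H985.Dense

/-- The Euclidean plane. -/
abbrev P2 : Type := EuclideanSpace ℝ (Fin 2)

/-- measurable equivalence of the plane with `ℝ × ℝ` -/
noncomputable def eqv : P2 ≃ᵐ ℝ × ℝ :=
  (MeasurableEquiv.toLp 2 (Fin 2 → ℝ)).symm.trans (MeasurableEquiv.finTwoArrow)

lemma eqv_apply (x : P2) : eqv x = (x 0, x 1) := rfl

lemma eqv_mp : MeasurePreserving eqv volume volume :=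
  (volume_preserving_finTwoArrow ℝ).comp (PiLp.volume_preserving_ofLp (Fin 2))

/-- The half-moon in coordinates. -/
def moon (h r : ℝ) : Set (ℝ × ℝ) :=
  {p | |p.2| ≤ r ∧ √(r ^ 2 - p.2 ^ 2) < p.1 ∧ p.1 ≤ √(r ^ 2 - p.2 ^ 2) + h}

lemma moon_meas (h r : ℝ) : MeasurableSet (moon h r) := by
  have h1 : MeasurableSet {p : ℝ × ℝ | |p.2| ≤ r} :=
    measurableSet_le (f := fun p : ℝ × ℝ => |p.2|) (g := fun _ => r) (by fun_prop) (by fun_prop)
  have h2 : MeasurableSet {p : ℝ × ℝ | √(r ^ 2 - p.2 ^ 2) < p.1} :=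
    measurableSet_lt (f := fun p : ℝ × ℝ => √(r ^ 2 - p.2 ^ 2)) (g := fun p => p.1)
      (by fun_prop) (by fun_prop)
  have h3 : MeasurableSet {p : ℝ × ℝ | p.1 ≤ √(r ^ 2 - p.2 ^ 2) + h} :=
    measurableSet_le (f := fun p : ℝ × ℝ => p.1) (g := fun p => √(r ^ 2 - p.2 ^ 2) + h)
      (by fun_prop) (by fun_prop)
  exact h1.inter (h2.inter h3)

lemma moon_vol {h r : ℝ} (hh : 0 ≤ h) (_hr : 0 ≤ r) : volume (moon h r) ≤ ENNReal.ofReal (2 * r * h) := by
  rw [Measure.volume_eq_prod, Measure.prod_apply_symm (moon_meas h r)]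
  have key : ∀ y : ℝ, volume ((fun x => (x, y)) ⁻¹' moon h r) ≤
      (Icc (-r) r).indicator (fun _ => ENNReal.ofReal h) y := by
    intro y
    by_cases hy : y ∈ Icc (-r) r
    · rw [indicator_of_mem hy]
      have : (fun x => (x, y)) ⁻¹' moon h r ⊆ Ioc (√(r ^ 2 - y ^ 2)) (√(r ^ 2 - y ^ 2) + h) := by
        intro x hx
        exact ⟨hx.2.1, hx.2.2⟩
      refine (measure_mono this).trans ?_
      rw [Real.volume_Ioc]
      simp
    · rw [indicator_of_notMem hy]
      have : (fun x => (x, y)) ⁻¹' moon h r = ∅ := by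
        ext x
        simp only [mem_preimage, mem_empty_iff_false, iff_false]
        intro hx
        exact hy (abs_le.mp hx.1)
      rw [this]; simp
  refine (lintegral_mono key).trans ?_
  rw [lintegral_indicator measurableSet_Icc, setLIntegral_const, Real.volume_Icc,
    ← ENNReal.ofReal_mul hh]
  apply ENNReal.ofReal_le_ofReal
  nlinarith

lemma moon_sub {h r : ℝ} (hh : 0 ≤ h) (hr : 0 ≤ r) :
    closedBall (h • (EuclideanSpace.single (0 : Fin 2) (1 : ℝ) : P2)) r \ closedBall 0 r ⊆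
      eqv ⁻¹' moon h r := by
  intro x hx
  obtain ⟨h1, h2⟩ := hx
  rw [mem_closedBall, EuclideanSpace.dist_eq, Fin.sum_univ_two] at h1
  rw [mem_closedBall, EuclideanSpace.dist_eq, Fin.sum_univ_two, not_le] at h2
  rw [Real.sqrt_le_left hr] at h1
  rw [Real.lt_sqrt hr] at h2
  simp only [PiLp.smul_apply, PiLp.single_apply, PiLp.zero_apply, Real.dist_eq,
    smul_eq_mul, sq_abs, sub_zero] at h1 h2
  norm_num at h1
  rw [mem_preimage, eqv_apply]
  have hy : (x 1) ^ 2 ≤ r ^ 2 := by nlinarith [sq_nonneg (x 0 - h)]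
  have hy' : |x 1| ≤ r := abs_le_of_sq_le_sq hy hr
  obtain ⟨s, hs⟩ : ∃ s, s = √(r ^ 2 - (x 1) ^ 2) := ⟨_, rfl⟩
  have hs0 : 0 ≤ s := by rw [hs]; exact Real.sqrt_nonneg _
  have hs2 : s ^ 2 = r ^ 2 - (x 1) ^ 2 := by rw [hs, Real.sq_sqrt (by linarith)]
  have ha : (x 0 - h) ^ 2 ≤ s ^ 2 := by rw [hs2]; linarith
  have hb : s ^ 2 < (x 0) ^ 2 := by rw [hs2]; linarith
  have ha' := abs_le_of_sq_le_sq' ha hs0
  refine ⟨hy', ?_, ?_⟩
  · rw [← hs]
    show s < x 0
    by_contra hcon
    push Not at hcon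
    nlinarith
  · rw [← hs]
    show x 0 ≤ s + h
    linarith [ha'.2]

lemma half_moon (c v : P2) {r : ℝ} (hr : 0 ≤ r) :
    volume (closedBall (c + v) r \ closedBall c r) ≤ ENNReal.ofReal (2 * r * ‖v‖) := by
  have e1 : ‖v‖ = ‖(‖v‖ • (EuclideanSpace.single (0 : Fin 2) (1 : ℝ) : P2))‖ := by
    rw [norm_smul]; simp
  obtain ⟨w, hw⟩ : ∃ w : P2, w = ‖v‖ • (EuclideanSpace.single (0 : Fin 2) (1 : ℝ) : P2) := ⟨_, rfl⟩
  rw [← hw] at e1
  let φ : P2 ≃ₗᵢ[ℝ] P2 := (ℝ ∙ (v - w))ᗮ.reflection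
  have hφ : φ v = w := Submodule.reflection_sub e1
  have hmp : MeasurePreserving (fun x : P2 => φ (x - c)) volume volume :=
    φ.measurePreserving.comp (measurePreserving_sub_right volume c)
  have hsub : closedBall (c + v) r \ closedBall c r ⊆
      (fun x : P2 => φ (x - c)) ⁻¹' (closedBall w r \ closedBall 0 r) := by
    intro x hx
    rw [mem_preimage, mem_sdiff, mem_closedBall, mem_closedBall]
    rw [mem_sdiff, mem_closedBall, mem_closedBall] at hx
    have h1 : dist (φ (x - c)) w = dist x (c + v) := by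
      rw [← hφ, φ.dist_map, dist_eq_norm, dist_eq_norm]
      congr 1; abel
    have h2 : dist (φ (x - c)) 0 = dist x c := by
      rw [← map_zero φ, φ.dist_map, dist_eq_norm, dist_eq_norm]
      congr 1; abel
    rw [h1, h2]; exact hx
  calc _ ≤ volume ((fun x : P2 => φ (x - c)) ⁻¹' (closedBall w r \ closedBall 0 r)) :=
        measure_mono hsub
    _ = volume (closedBall w r \ closedBall (0 : P2) r) :=
        hmp.measure_preimage (measurableSet_closedBall.diff measurableSet_closedBall).nullMeasurableSet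
    _ ≤ volume (eqv ⁻¹' moon ‖v‖ r) := by
        apply measure_mono
        rw [hw]
        exact moon_sub (norm_nonneg v) hr
    _ = volume (moon ‖v‖ r) := eqv_mp.measure_preimage (moon_meas _ _).nullMeasurableSet
    _ ≤ _ := moon_vol (norm_nonneg v) hr

/-- Area of the union of discs centred at a chain of points. -/
lemma chain_vol (c : ℕ → P2) {r : ℝ} (hr : 0 ≤ r) (i0 n : ℕ) :
    volume (⋃ i ∈ Icc i0 (i0 + n), closedBall (c i) r) ≤
      ENNReal.ofReal (Real.pi * r ^ 2 + 2 * r * ∑ j ∈ Finset.Ico i0 (i0 + n), dist (c j) (c (j + 1))) := by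
  induction n with
  | zero =>
    simp only [add_zero, Icc_self, mem_singleton_iff, iUnion_iUnion_eq_left, Finset.Ico_self,
      Finset.sum_empty, mul_zero]
    rw [EuclideanSpace.volume_closedBall_fin_two, ← ENNReal.ofReal_pow hr,
      ← ENNReal.ofReal_mul (by positivity), mul_comm]
  | succ n ih =>
    have hsub : (⋃ i ∈ Icc i0 (i0 + (n + 1)), closedBall (c i) r) ⊆
        (⋃ i ∈ Icc i0 (i0 + n), closedBall (c i) r) ∪
          (closedBall (c (i0 + n + 1)) r \ closedBall (c (i0 + n)) r) := by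
      intro x hx
      rw [mem_iUnion₂] at hx
      obtain ⟨i, hi, hx⟩ := hx
      by_cases h : i ≤ i0 + n
      · exact Or.inl (mem_iUnion₂.mpr ⟨i, ⟨hi.1, h⟩, hx⟩)
      · have : i = i0 + n + 1 := by
          have := hi.2
          omega
        subst this
        by_cases h' : x ∈ closedBall (c (i0 + n)) r
        · exact Or.inl (mem_iUnion₂.mpr ⟨i0 + n, ⟨by omega, le_rfl⟩, h'⟩)
        · exact Or.inr ⟨hx, h'⟩
    have hmoon : volume (closedBall (c (i0 + n + 1)) r \ closedBall (c (i0 + n)) r) ≤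
        ENNReal.ofReal (2 * r * dist (c (i0 + n)) (c (i0 + n + 1))) := by
      have := half_moon (c (i0 + n)) (c (i0 + n + 1) - c (i0 + n)) hr
      rw [add_sub_cancel, ← dist_eq_norm, dist_comm] at this
      exact this
    refine (measure_mono hsub).trans ((measure_union_le _ _).trans ?_)
    refine (add_le_add ih hmoon).trans ?_
    rw [← ENNReal.ofReal_add]
    · apply ENNReal.ofReal_le_ofReal
      rw [← add_assoc, Finset.sum_Ico_succ_top (by omega)]
      linarith
    · have : 0 ≤ ∑ j ∈ Finset.Ico i0 (i0 + n), dist (c j) (c (j + 1)) :=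
        Finset.sum_nonneg fun _ _ => dist_nonneg
      positivity
    · positivity

end Pool.Agent.H985.Dense
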