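import Pool.Agent.H985.Dense.Select

set_option autoImplicit false
open MeasureTheory Set Metric Filter
open scoped ENNReal NNReal RealInnerProductSpace Topology

namespace Pool.Agent.H985.Dense

variable {E : Type*} [NormedAddCommGroup E] [InnerProductSpace ℝ E] [MeasurableSpace E]
  [BorelSpace E]

lemma vol_ball_sq (x : ℝ × ℝ) {r : ℝ} (hr : 0 ≤ r) :
    volume (ball x r) = ENNReal.ofReal ((2 * r) ^ 2) := by
  rw [← Prod.mk.eta (p := x), ← ball_prod_same, Measure.volume_eq_prod, Measure.prod_prod,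
    Real.volume_ball, Real.volume_ball, ← ENNReal.ofReal_mul (by linarith)]
  congr 1; ring

lemma chart_upper {S : Set E} {ψ : ℝ × ℝ → E} {C : ℝ} (h : Chart S ψ C)
    (hdiff : ∀ᵐ x : ℝ × ℝ, x ∈ ball (0 : ℝ × ℝ) 1 →
      ∃ A : ℝ × ℝ →L[ℝ] E, Function.Injective A ∧ HasStrictFDerivAt ψ A x)
    (hinj : InjOn ψ (ball 0 1)) {D : ℝ} (hD0 : 0 ≤ D)
    (hD : ∀ p ∈ S, ∀ q ∈ S, Cov S ∅ p q D) {δ : ℝ} (hδ0 : 0 < δ) (hδ : δ ≤ 1 / 2) {θ : ℝ}
    (hθ : 0 < θ) :
    ∃ (U : Set E) (α K : ℝ), U ⊆ ψ '' ball 0 1 ∧ IsCompact U ∧ 0 ≤ α ∧ 0 ≤ K ∧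
      ENNReal.ofReal α ≤ ENNReal.ofReal ((1 + 2 * δ) ^ 2) * μHE[2] U ∧
      ∀ᶠ ε in 𝓝[>] (0:ℝ), ∃ (V : Set E) (p q : E),
        Cov S V p q (α * (1 + δ) ^ 2 / (2 * ε) + θ / ε + K) ∧
        ∀ z ∈ Q0, ∃ v ∈ V, Cov S ∅ (ψ z) v ε := by
  classical
  have hC := h.pos
  obtain ⟨s, hs⟩ : ∃ s, s = 16 * C / θ := ⟨_, rfl⟩
  have hs0 : 0 < s := by rw [hs]; positivity
  obtain ⟨θ', hθ'⟩ : ∃ θ', θ' = θ / (2 * C ^ 3 * s) := ⟨_, rfl⟩
  have hθ'0 : 0 < θ' := by rw [hθ']; positivity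
  obtain ⟨η, hη⟩ : ∃ η, η = θ' / 2 := ⟨_, rfl⟩
  have hη0 : 0 < η := by rw [hη]; positivity
  obtain ⟨F, r, hflat, hsub, hdisj, hvol⟩ := select hdiff hδ0 hη0
  have hrpos : ∀ x ∈ F, 0 < r x := fun x hx => (hflat x hx).1
  obtain ⟨M0, hM0⟩ : ∃ M0 : ℝ, M0 = ∑ x ∈ F, (2 * r x) ^ 2 := ⟨_, rfl⟩
  have hM00 : 0 ≤ M0 := by rw [hM0]; exact Finset.sum_nonneg fun _ _ => by positivity
  obtain ⟨ρ, hρ⟩ : ∃ ρ : ℝ, ρ = 1 - η / (2 * (M0 + η) + 1) := ⟨_, rfl⟩
  have hfrac : η / (2 * (M0 + η) + 1) < 1 := by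
    rw [div_lt_one (by positivity)]; linarith
  have hfrac0 : 0 < η / (2 * (M0 + η) + 1) := by positivity
  have hρ1 : ρ < 1 := by rw [hρ]; linarith
  have hρ0 : 0 < ρ := by rw [hρ]; linarith
  have hρM : (1 - ρ ^ 2) * M0 ≤ η := by
    have h1 : 1 - ρ ^ 2 ≤ 2 * (1 - ρ) := by nlinarith
    have h2 : 2 * (1 - ρ) * M0 ≤ η := by
      have e : 2 * (1 - ρ) * M0 = η * (2 * M0 / (2 * (M0 + η) + 1)) := by
        rw [hρ]; field_simp; ring
      rw [e]
      have : 2 * M0 / (2 * (M0 + η) + 1) ≤ 1 := by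
        rw [div_le_one (by positivity)]; linarith
      nlinarith
    nlinarith
  -- leftover region
  obtain ⟨R, hR⟩ : ∃ R : Set (ℝ × ℝ), R = Q0 \ ⋃ x ∈ F, ball x (ρ * r x) := ⟨_, rfl⟩
  have hRclosed : IsClosed R := by
    rw [hR]
    exact isClosed_closedBall.sdiff (isOpen_biUnion fun _ _ => isOpen_ball)
  have hRQ : R ⊆ Q0 := by rw [hR]; exact sdiff_subset
  have hRvol : volume R < ENNReal.ofReal θ' := by
    have h1 : R ⊆ (Q0 \ ⋃ x ∈ F, closedBall x (r x)) ∪
        ⋃ x ∈ F, (closedBall x (r x) \ ball x (ρ * r x)) := by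
      intro z hz
      rw [hR] at hz
      by_cases hz' : z ∈ ⋃ x ∈ F, closedBall x (r x)
      · right
        rw [mem_iUnion₂] at hz' ⊢
        obtain ⟨x, hx, hzx⟩ := hz'
        exact ⟨x, hx, hzx, fun hzb => hz.2 (mem_iUnion₂.mpr ⟨x, hx, hzb⟩)⟩
      · exact Or.inl ⟨hz.1, hz'⟩
    have h2 : volume (⋃ x ∈ F, (closedBall x (r x) \ ball x (ρ * r x))) ≤ ENNReal.ofReal η := by
      refine (measure_biUnion_finset_le _ _).trans ?_
      have h3 : ∀ x ∈ F, volume (closedBall x (r x) \ ball x (ρ * r x)) =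
          ENNReal.ofReal ((1 - ρ ^ 2) * (2 * r x) ^ 2) := by
        intro x hx
        have hr := hrpos x hx
        rw [measure_sdiff _ measurableSet_ball.nullMeasurableSet measure_ball_lt_top.ne,
          vol_sq x hr.le, vol_ball_sq x (by positivity), ← ENNReal.ofReal_sub _ (by positivity)]
        · congr 1; ring
        · refine ball_subset_closedBall.trans (closedBall_subset_closedBall ?_)
          nlinarith
      rw [Finset.sum_congr rfl h3, ← ENNReal.ofReal_sum_of_nonneg, ← Finset.mul_sum, ← hM0]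
      · exact ENNReal.ofReal_le_ofReal hρM
      · intro x _
        have : 0 ≤ 1 - ρ ^ 2 := by nlinarith
        positivity
    calc volume R ≤ _ := measure_mono h1
      _ ≤ _ := measure_union_le _ _
      _ < ENNReal.ofReal η + ENNReal.ofReal η :=
          ENNReal.add_lt_add_of_lt_of_le (ne_top_of_le_ne_top ENNReal.ofReal_ne_top h2) hvol h2
      _ = ENNReal.ofReal θ' := by
          rw [← ENNReal.ofReal_add hη0.le hη0.le, hη]; congr 1; ring
  have hthick : ∀ᶠ t in 𝓝[>] (0:ℝ), volume (thickening t R) < ENNReal.ofReal θ' := by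
    have hfin : ∃ t > 0, volume (thickening t R) ≠ ⊤ := by
      refine ⟨1, one_pos, ?_⟩
      have : Bornology.IsBounded (thickening 1 R) :=
        (isBounded_closedBall.subset hRQ).thickening
      exact this.measure_lt_top.ne
    exact (tendsto_order.1 (tendsto_measure_thickening_of_isClosed hfin hRclosed)).2 _ hRvol
  -- patches
  have hpatch : ∀ x : F, ∃ α K : ℝ, 0 ≤ α ∧ 0 ≤ K ∧
      ENNReal.ofReal α ≤ ENNReal.ofReal ((1 + 2 * δ) ^ 2) *
        μHE[2] (ψ '' closedBall (x : ℝ × ℝ) (r x)) ∧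
      ∀ᶠ ε in 𝓝[>] (0:ℝ), ∃ (V : Set E) (p q : E),
        Cov S V p q (α * (1 + δ) ^ 2 / (2 * ε) + K) ∧
        ∀ z ∈ closedBall (x : ℝ × ℝ) (ρ * r x), ∃ v ∈ V, Cov S ∅ (ψ z) v ε := by
    intro x
    obtain ⟨α, K, ε0, h1, h2, h3, h4, h5⟩ := patch_cost h hδ0.le hδ (hflat x x.2)
      ((hsub x x.2).trans ball_subset_closedBall) hρ1
    refine ⟨α, K, h1, h2, h4, ?_⟩
    filter_upwards [Ioo_mem_nhdsGT h3] with ε hε
    exact h5 ε hε.1 hε.2
  choose α K hα hK hμ hev using hpatch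
  have hev' : ∀ᶠ ε in 𝓝[>] (0:ℝ), ∀ x : F, ∃ (V : Set E) (p q : E),
      Cov S V p q (α x * (1 + δ) ^ 2 / (2 * ε) + K x) ∧
      ∀ z ∈ closedBall (x : ℝ × ℝ) (ρ * r x), ∃ v ∈ V, Cov S ∅ (ψ z) v ε :=
    eventually_all.mpr hev
  refine ⟨⋃ x ∈ F, ψ '' closedBall x (r x), ∑ x, α x, ∑ x, (K x + D) + D + 4 * C, ?_, ?_,
    Finset.sum_nonneg fun _ _ => hα _, ?_, ?_, ?_⟩
  · apply iUnion₂_subset
    intro x hx
    exact image_mono (hsub x hx)
  · apply F.isCompact_biUnion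
    intro x hx
    apply (isCompact_closedBall x (r x)).image_of_continuousOn
    have hl : LipschitzOnWith (Real.toNNReal C) ψ Q0 := by
      apply LipschitzOnWith.of_dist_le_mul
      intro p hp q hq
      rw [Real.coe_toNNReal _ hC.le]
      exact h.lip p hp q hq
    exact hl.continuousOn.mono ((hsub x hx).trans ball_subset_closedBall)
  · have : 0 ≤ ∑ x, (K x + D) := Finset.sum_nonneg fun x _ => add_nonneg (hK x) hD0
    positivity
  · rw [measure_biUnion_finset]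
    · rw [ENNReal.ofReal_sum_of_nonneg fun _ _ => hα _, Finset.mul_sum, ← Finset.sum_attach F]
      exact Finset.sum_le_sum fun x _ => hμ x
    · intro x hx y hy hxy
      have := hdisj hx hy hxy
      rw [Function.onFun, disjoint_left] at this ⊢
      rintro _ ⟨p, hp, rfl⟩ ⟨q, hq, hpq⟩
      have := hinj (hsub y hy hq) (hsub x hx hp) hpq
      subst this
      exact (hdisj hx hy hxy).le_bot ⟨hp, hq⟩
    · intro x hx
      apply IsCompact.measurableSet
      apply (isCompact_closedBall x (r x)).image_of_continuousOn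
      have hl : LipschitzOnWith (Real.toNNReal C) ψ Q0 := by
        apply LipschitzOnWith.of_dist_le_mul
        intro p hp q hq
        rw [Real.coe_toNNReal _ hC.le]
        exact h.lip p hp q hq
      exact hl.continuousOn.mono ((hsub x hx).trans ball_subset_closedBall)
  · have hthick' : ∀ᶠ ε in 𝓝[>] (0:ℝ), volume (thickening (ε / C / 2) R) < ENNReal.ofReal θ' := by
      have ht : Tendsto (fun ε : ℝ => ε / C / 2) (𝓝[>] 0) (𝓝[>] 0) := by
        apply tendsto_nhdsWithin_iff.mpr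
        constructor
        · have : Tendsto (fun ε : ℝ => ε / C / 2) (𝓝 0) (𝓝 (0 / C / 2)) := by
            apply Continuous.tendsto; fun_prop
          rw [zero_div, zero_div] at this
          exact this.mono_left nhdsWithin_le_nhds
        · filter_upwards [self_mem_nhdsWithin] with ε hε
          have : (0:ℝ) < ε := hε
          exact mem_Ioi.mpr (by positivity)
      exact ht.eventually hthick
    filter_upwards [hev', hthick', self_mem_nhdsWithin] with ε h1 h2 hε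
    have hε0 : (0:ℝ) < ε := hε
    obtain ⟨T, hT1, hT2, hT3⟩ := exists_net (R := R) (h := ε / C) (by positivity) hθ'0.le h2.le
    choose V p q hcov hden using h1
    have hz0 : (0 : ℝ × ℝ) ∈ Q0 := mem_closedBall_self zero_le_one
    have hp0 := h.maps _ hz0
    obtain ⟨q1, hq1⟩ := combine hD Finset.univ V (fun x => α x * (1 + δ) ^ 2 / (2 * ε) + K x)
      (fun x _ => ⟨p x, q x, hcov x⟩) (ψ 0) hp0
    obtain ⟨q2, hq2Q, hq2⟩ := h.visit (w := s * ε) (by positivity) T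
      (fun t ht => hRQ (hT1 t ht)) 0 hz0
    have hfull := (hq1.concat (hD q1 hq1.right_mem (ψ 0) hp0)).concat hq2
    refine ⟨_, _, _, hfull.mono ?_, ?_⟩
    · have e1 : ∑ x : F, (α x * (1 + δ) ^ 2 / (2 * ε) + K x + D) =
          (∑ x, α x) * (1 + δ) ^ 2 / (2 * ε) + ∑ x, (K x + D) := by
        rw [Finset.sum_mul, Finset.sum_div, ← Finset.sum_add_distrib]
        exact Finset.sum_congr rfl fun x _ => by ring
      rw [e1]
      have h3 : (T.card : ℝ) * (s * ε) ≤ θ' * C ^ 2 * s / ε := by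
        have h4 : (T.card : ℝ) * ε ^ 2 ≤ θ' * C ^ 2 := by
          have e2 : (T.card : ℝ) * (ε / C) ^ 2 = (T.card : ℝ) * ε ^ 2 / C ^ 2 := by ring
          rw [e2, div_le_iff₀ (by positivity)] at hT3
          exact hT3
        rw [le_div_iff₀ hε0]
        nlinarith
      have h5 : C * (4 * (2 / (s * ε) + 1) + (T.card : ℝ) * (s * ε)) ≤ θ / ε + 4 * C := by
        have h6 : C * (4 * (2 / (s * ε) + 1) + (T.card : ℝ) * (s * ε)) ≤
            C * (4 * (2 / (s * ε) + 1) + θ' * C ^ 2 * s / ε) := by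
          apply mul_le_mul_of_nonneg_left _ hC.le
          linarith
        refine h6.trans (le_of_eq ?_)
        rw [hθ', hs]
        field_simp
        ring
      linarith
    · intro z hz
      by_cases hzR : z ∈ R
      · obtain ⟨t, ht, hzt⟩ := hT2 z hzR
        refine ⟨ψ t, Or.inr ⟨t, ht, rfl⟩, ?_⟩
        have := (h.seg' hz (hRQ (hT1 t ht)) (c := ε / C) (by positivity) hzt).subset
          (empty_subset _)
        rwa [mul_div_cancel₀ _ hC.ne'] at this
      · have : z ∈ ⋃ x ∈ F, ball x (ρ * r x) := by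
          by_contra hcon
          exact hzR (by rw [hR]; exact ⟨hz, hcon⟩)
        rw [mem_iUnion₂] at this
        obtain ⟨x, hx, hzx⟩ := this
        obtain ⟨v, hv, hcv⟩ := hden ⟨x, hx⟩ z (ball_subset_closedBall hzx)
        exact ⟨v, Or.inl (Or.inl (mem_iUnion₂.mpr ⟨⟨x, hx⟩, Finset.mem_univ _, hv⟩)), hcv⟩

end Pool.Agent.H985.Dense
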